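import Mathlib
import Pool.Agent.Lib.MP_d87a8f_pr.M.Low
import Pool.Agent.Lib.MP_d87a8f_pr.S.Cen

/-!
The number of characters of small degree of a perfect central extension.
-/

namespace Pool.Agent.Lib.MP_d87a8f_pr.K

open Finset Pool.Agent.Lib.MP_d87a8f_pr.E Pool.Agent.Lib.MP_d87a8f_pr.M

variable {G : Type} [Group G] [Fintype G] {Y : Type} [Group Y] [Fintype Y]

/-- the characters are orthonormal, hence linearly independent; a combination `f` of them is a
class function with `f (y * z) = l z * f y`, so it vanishes if it vanishes at one preimage of a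
representative of each class of `Y` -/
theorem card_fibre (φ : G →* Y) (hφ : Function.Surjective φ) (l : G → ℂ) (s : Finset (G → ℂ))
    (hs : ∀ χ ∈ s, Ir ⊤ χ ∧ ∀ y, ∀ z ∈ φ.ker, χ (y * z) = l z * χ y) :
    s.card ≤ Nat.card (ConjClasses Y) := by
  classical
  have : Fintype (ConjClasses Y) := Fintype.ofFinite _
  have h0 : ∀ c : ConjClasses Y, ∃ g : G, ConjClasses.mk (φ g) = c := fun c => by
    obtain ⟨y, rfl⟩ := ConjClasses.mk_surjective c
    obtain ⟨g, rfl⟩ := hφ y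
    exact ⟨g, rfl⟩
  choose r hr using h0
  have hli : LinearIndependent ℂ fun χ : s => fun c : ConjClasses Y => (χ : G → ℂ) (r c) := by
    rw [Fintype.linearIndependent_iff]
    intro a ha ψ
    have h1 : ∀ x, ∑ χ : s, a χ * (χ : G → ℂ) x = 0 := fun x => by
      obtain ⟨y, hy⟩ := isConj_iff.1 (ConjClasses.mk_eq_mk_iff_isConj.1 (hr (.mk (φ x))))
      obtain ⟨g, rfl⟩ := hφ y
      set t := r (.mk (φ x)) with ht
      have hz : (g * t * g⁻¹)⁻¹ * x ∈ φ.ker := by
        rw [MonoidHom.mem_ker, map_mul, map_inv, map_mul, map_mul, map_inv, hy, inv_mul_cancel]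
      have h2 := congrFun ha (.mk (φ x))
      rw [Finset.sum_apply, Pi.zero_apply] at h2
      have h3 : ∀ χ : s, a χ * (χ : G → ℂ) x = l ((g * t * g⁻¹)⁻¹ * x) * (a χ * (χ : G → ℂ) t) :=
        fun χ => by
          have h4 := (hs χ χ.2).2 (g * t * g⁻¹) _ hz
          rw [mul_inv_cancel_left, (hs χ χ.2).1.1.cl g trivial t trivial] at h4
          rw [h4]; ring
      rw [sum_congr rfl fun χ _ => h3 χ, ← mul_sum]
      exact mul_eq_zero_of_right _ h2
    have h5 := ip_sum (⊤ : Subgroup G) univ a (fun χ : s => (χ : G → ℂ)) ψ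
    rw [sum_eq_single ψ (fun χ _ hne => ?_) (fun h => absurd (mem_univ _) h), (hs ψ ψ.2).1.2,
      mul_one] at h5
    · rw [← h5]
      simp only [ip, h1, zero_mul, sum_const_zero, mul_zero]
    · refine mul_eq_zero_of_right _ ?_
      by_contra h
      exact hne (Subtype.ext (funext fun x =>
        (hs χ χ.2).1.eq_of_ip (hs ψ ψ.2).1 h x trivial))
  have h6 := hli.fintype_card_le_finrank
  rwa [Fintype.card_coe, Module.finrank_fintype_fun_eq_card, ← Nat.card_eq_fintype_card] at h6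

/-- split by the degree `e`, `1 ≤ e ≤ d`, then by the restriction to `Z = φ.ker`
(`S.central_core` with `K = ⁅⊤, Z⁆`; `Z.relIndex P` is the order of the image of `P`), then
`S.cen_char` and `card_fibre`; `2 * e + 1 ≤ 2 ^ (b + 2)` -/
theorem central_perf (φ : G →* Y) (hφ : Function.Surjective φ) (hG : commutator G = ⊤)
    {a b d : ℕ} (hd : d ≤ 2 ^ b)
    (hp : ∀ (p : ℕ) (P : Subgroup Y), p.Prime → IsPGroup p P → Nat.card P ≤ 2 ^ a)
    (s : Finset (G → ℂ)) (hs : s ⊆ irr G d)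
    (hz : ∀ χ ∈ s, ⁅(⊤ : Subgroup G), φ.ker⁆ ≤ kerf χ) :
    s.card ≤ Nat.card (ConjClasses Y) * 2 ^ (b + a * b * (2 * b + 2)) := by
  classical
  have hK : ⁅(⊤ : Subgroup G), φ.ker⁆ ≤ φ.ker := Subgroup.commutator_le_right _ _
  have key : ∀ e ∈ Icc 1 d, (s.filter fun χ => χ 1 = (e : ℂ)).card ≤
      Nat.card (ConjClasses Y) * 2 ^ (a * b * (2 * b + 2)) := fun e he => by
    have he2 : e ≤ 2 ^ b := (mem_Icc.1 he).2.trans hd
    have h1 := S.central_core ⁅(⊤ : Subgroup G), φ.ker⁆ φ.ker hK le_rfl (a := a)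
      (fun p P hp' hP => by
        rw [Subgroup.relIndex_ker]
        exact hp p _ hp' (hP.map φ)) he2 (s.filter fun χ => χ 1 = (e : ℂ)) fun χ hχ =>
        ⟨(mem_irr.1 (hs (mem_filter.1 hχ).1)).1, (mem_filter.1 hχ).2,
          fun y _ x hx => hz χ (mem_filter.1 hχ).1 hx y⟩
    have h2 := card_le_mul_card_image (f := fun (χ : G → ℂ) =>
      fun z : (φ.ker ⊓ commutator G : Subgroup G) => χ z) (s.filter fun χ => χ 1 = (e : ℂ))
      (Nat.card (ConjClasses Y)) fun w _ => by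
        refine card_fibre φ hφ (fun z => if h : z ∈ φ.ker ⊓ commutator G then w ⟨z, h⟩ / e else 0)
          _ fun χ hχ => ?_
        obtain ⟨h3, h4⟩ := mem_filter.1 hχ
        obtain ⟨h5, h6⟩ := mem_filter.1 h3
        have h7 := (mem_irr.1 (hs h5)).1
        refine ⟨h7, fun y z hz' => ?_⟩
        have h8 : z ∈ φ.ker ⊓ commutator G := ⟨hz', hG ▸ Subgroup.mem_top z⟩
        rw [dif_pos h8, ← h4]
        exact (S.cen_char h7 h6 φ.ker (hz χ h5)).2.1 y z hz'
    refine h2.trans (Nat.mul_le_mul_left _ (h1.trans ?_))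
    have h9 : 2 * e + 1 ≤ 2 ^ (b + 2) := by
      have := Nat.one_le_two_pow (n := b)
      rw [pow_add]; omega
    calc ((2 * e + 1) ^ a * 2 ^ (a * b)) ^ b ≤ ((2 ^ (b + 2)) ^ a * 2 ^ (a * b)) ^ b := by gcongr
      _ = 2 ^ (a * b * (2 * b + 2)) := by
        rw [← pow_mul, ← pow_add, ← pow_mul]; congr 1; ring
  have hsub : s ⊆ (Icc 1 d).biUnion fun e => s.filter fun χ => χ 1 = (e : ℂ) := fun χ hχ => by
    obtain ⟨h1, n, hn, hn'⟩ := mem_irr.1 (hs hχ)
    obtain ⟨k, hk, hk'⟩ := h1.deg_pos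
    have : n = k := by exact_mod_cast hn'.symm.trans hk'
    exact mem_biUnion.2 ⟨n, mem_Icc.2 ⟨by omega, hn⟩, mem_filter.2 ⟨hχ, hn'⟩⟩
  refine (card_le_card hsub).trans ((card_biUnion_le_card_mul _ _ _ key).trans ?_)
  rw [Nat.card_Icc, Nat.add_sub_cancel, pow_add, mul_left_comm]
  gcongr

end Pool.Agent.Lib.MP_d87a8f_pr.K
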