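import Mathlib

/-!
Powers of prime power order.
-/

namespace Pool.Agent.Lib.MP_d87a8f_pr.K

variable {G : Type} [Group G] [Finite G]

/-- among the powers of `x` outside `H` take one, `u`, of least order `N`; if `N = p ^ k * m` with
`m > 1` prime to `p` then `u ^ p ^ k` and `u ^ m` lie in `H`, hence `u` does (Bezout) -/
theorem pow_part (H : Subgroup G) {x : G} (hx : x ∉ H) :
    ∃ n p k : ℕ, p.Prime ∧ 0 < k ∧ orderOf (x ^ n) = p ^ k ∧ x ^ n ∉ H := by
  have key : ∀ N : ℕ, ∀ x : G, orderOf x = N → x ∉ H →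
      ∃ n p k : ℕ, p.Prime ∧ 0 < k ∧ orderOf (x ^ n) = p ^ k ∧ x ^ n ∉ H := by
    intro N
    induction N using Nat.recOnPosPrimePosCoprime with
    | prime_pow p k hp hk =>
      exact fun x h hx => ⟨1, p, k, hp, hk, by rw [pow_one, h], by rwa [pow_one]⟩
    | zero => exact fun x h _ => absurd h (orderOf_pos x).ne'
    | one => exact fun x h hx => absurd (orderOf_eq_one_iff.1 h ▸ H.one_mem) hx
    | coprime a b ha hb hab iha ihb =>
      intro x h hx
      have ha0 : a ≠ 0 := by omega
      have hb0 : b ≠ 0 := by omega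
      by_cases h1 : x ^ a ∈ H
      · by_cases h2 : x ^ b ∈ H
        · refine absurd ?_ hx
          have e : x = (x ^ a) ^ Nat.gcdA a b * (x ^ b) ^ Nat.gcdB a b := by
            have h3 := Nat.gcd_eq_gcd_ab a b
            rw [hab] at h3
            rw [← zpow_natCast, ← zpow_natCast, ← zpow_mul, ← zpow_mul, ← zpow_add, ← h3]
            simp
          rw [e]
          exact H.mul_mem (H.zpow_mem h1 _) (H.zpow_mem h2 _)
        · obtain ⟨n, p, k, hp, hk, h3, h4⟩ := iha (x ^ b) (by
            rw [orderOf_pow_of_dvd hb0 (h ▸ Dvd.intro_left a rfl), h,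
              Nat.mul_div_cancel _ (by omega)]) h2
          rw [← pow_mul] at h3 h4
          exact ⟨_, p, k, hp, hk, h3, h4⟩
      · obtain ⟨n, p, k, hp, hk, h3, h4⟩ := ihb (x ^ a) (by
          rw [orderOf_pow_of_dvd ha0 (h ▸ Dvd.intro b rfl), h,
            Nat.mul_div_cancel_left _ (by omega)]) h1
        rw [← pow_mul] at h3 h4
        exact ⟨_, p, k, hp, hk, h3, h4⟩
  exact key _ x rfl hx

end Pool.Agent.Lib.MP_d87a8f_pr.K
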