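import Mathlib

/-!
Representations of groups of prime power order are monomial; commuting ones are diagonal.
-/

namespace Pool.Agent.Lib.MP_d87a8f_pr.K

open Module

variable {G : Type} [Group G] [Finite G] {V : Type} [AddCommGroup V] [Module ℂ V]
  [FiniteDimensional ℂ V]

theorem iSup_eig (ρ : G →* End ℂ V) (u : G) (B : Submodule ℂ V) (hB : ∀ v ∈ B, ρ u v ∈ B) :
    B = ⨆ c, B ⊓ (ρ u).eigenspace c := by
  have hN : (Nat.card G : ℂ) ≠ 0 := Nat.cast_ne_zero.2 Nat.card_pos.ne'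
  have h1 : (ρ u).IsSemisimple := by
    refine End.isSemisimple_of_squarefree_aeval_eq_zero
      (Polynomial.X_pow_sub_one_separable_iff.2 hN).squarefree ?_
    rw [map_sub, map_pow, Polynomial.aeval_X, map_one, ← map_pow, pow_card_eq_one', map_one,
      sub_self]
  exact Submodule.eq_iSup_inf_genEigenspace 1 hB h1.iSup_eigenspace_eq_top

omit [FiniteDimensional ℂ V] in
theorem eig_bot (ρ : G →* End ℂ V) (u : G) {c : ℂ}
    (hc : c ∉ Polynomial.nthRootsFinset (Nat.card G) (1 : ℂ)) : (ρ u).eigenspace c = ⊥ := by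
  by_contra h
  obtain ⟨v, hv⟩ := End.HasEigenvalue.exists_hasEigenvector h
  have h1 := hv.pow_apply (Nat.card G)
  rw [← map_pow, pow_card_eq_one', map_one, End.one_apply] at h1
  refine hc ((Polynomial.mem_nthRootsFinset Nat.card_pos _).2 ?_)
  have h2 : (c ^ Nat.card G - 1) • v = 0 := by rw [sub_smul, ← h1, one_smul, sub_self]
  exact sub_eq_zero.1 ((smul_eq_zero.1 h2).resolve_right hv.2)

/-- an invariant subspace is the sum of its parts in the eigenspaces: with `N = Nat.card G` and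
`ρ u ^ N = 1`, `v` is the sum over the roots of unity `c` of `N⁻¹ • ∑ k < N, c⁻¹ ^ k • ρ u ^ k v` -/
theorem sup_eig (ρ : G →* End ℂ V) (u : G) (B : Submodule ℂ V) (hB : ∀ v ∈ B, ρ u v ∈ B) :
    (Polynomial.nthRootsFinset (Nat.card G) (1 : ℂ)).sup (fun c => B ⊓ (ρ u).eigenspace c) = B := by
  refine le_antisymm (Finset.sup_le fun c _ => inf_le_left) ?_
  refine (iSup_eig ρ u B hB).le.trans (iSup_le fun c => ?_)
  by_cases hc : c ∈ Polynomial.nthRootsFinset (Nat.card G) (1 : ℂ)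
  · exact Finset.le_sup (f := fun c => B ⊓ (ρ u).eigenspace c) hc
  · rw [eig_bot ρ u hc, inf_bot_eq]
    exact bot_le

/-- bases of the parts in the eigenspaces form a basis (`End.eigenspaces_iSupIndep`) -/
theorem glue (ρ : G →* End ℂ V) (u : G) (B : Submodule ℂ V) (hB : ∀ v ∈ B, ρ u v ∈ B)
    (S : ℂ → Finset V) (h1 : ∀ c, LinearIndepOn ℂ id (S c : Set V))
    (h2 : ∀ c, Submodule.span ℂ (S c : Set V) = B ⊓ (ρ u).eigenspace c) :
    ∃ T : Finset V, LinearIndepOn ℂ id (T : Set V) ∧ Submodule.span ℂ (T : Set V) = B ∧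
      ∀ v, v ∈ T ↔ ∃ c, v ∈ S c := by
  have h3 : LinearIndepOn ℂ id (⋃ c, (S c : Set V)) := by
    refine linearIndepOn_id_iUnion_finite h1 fun i t _ hi => ?_
    refine ((ρ u).eigenspaces_iSupIndep i).mono (by rw [h2]; exact inf_le_right) ?_
    refine iSup₂_le fun j hj => ?_
    rw [h2]
    exact inf_le_right.trans (le_iSup₂_of_le (f := fun j (_ : j ≠ i) => (ρ u).eigenspace j) j
      (fun h => hi (h ▸ hj)) le_rfl)
  have h4 : (⋃ c, (S c : Set V)).Finite := h3.setFinite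
  refine ⟨h4.toFinset, by rwa [h4.coe_toFinset], ?_, fun v => ?_⟩
  · rw [h4.coe_toFinset, Submodule.span_iUnion]
    simp only [h2]
    exact (iSup_eig ρ u B hB).symm
  · rw [h4.mem_toFinset, Set.mem_iUnion]
    rfl

/-- induction on the dimension of `B`; if some `u ∈ A` is not scalar on `B` the parts of `B` in
the eigenspaces of `ρ u` are invariant and smaller; `glue` -/
theorem diag (ρ : G →* End ℂ V) (A : Subgroup G)
    (hA : ∀ x ∈ A, ∀ y ∈ A, ρ x * ρ y = ρ y * ρ x) (B : Submodule ℂ V)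
    (hB : ∀ g ∈ A, ∀ v ∈ B, ρ g v ∈ B) :
    ∃ S : Finset V, LinearIndepOn ℂ id (S : Set V) ∧ Submodule.span ℂ (S : Set V) = B ∧
      ∀ g ∈ A, ∀ v ∈ S, ∃ c : ℂ, ρ g v = c • v := by
  induction hd : finrank ℂ B using Nat.strong_induction_on generalizing B with
  | _ d ih =>
  by_cases h : ∀ u ∈ A, ∃ c : ℂ, ∀ v ∈ B, ρ u v = c • v
  · obtain ⟨s, s1, s2, s3⟩ := exists_linearIndependent ℂ (B : Set V)
    have s4 : LinearIndepOn ℂ id s := s3
    have s5 : s.Finite := s4.setFinite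
    refine ⟨s5.toFinset, by rwa [s5.coe_toFinset], ?_, fun g hg v hv => ?_⟩
    · rw [s5.coe_toFinset, s2, Submodule.span_eq]
    · obtain ⟨c, hc⟩ := h g hg
      exact ⟨c, hc v (s1 (s5.mem_toFinset.1 hv))⟩
  · simp only [not_forall] at h
    obtain ⟨u, hu, h⟩ := h
    have h1 : ∀ c : ℂ, ∃ S : Finset V, LinearIndepOn ℂ id (S : Set V) ∧
        Submodule.span ℂ (S : Set V) = B ⊓ (ρ u).eigenspace c ∧
        ∀ g ∈ A, ∀ v ∈ S, ∃ c : ℂ, ρ g v = c • v := fun c => by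
      refine ih _ ?_ _ (fun g hg v hv => ⟨hB g hg v hv.1, ?_⟩) rfl
      · rw [← hd]
        refine Submodule.finrank_lt_finrank_of_lt (lt_of_le_of_ne inf_le_left fun e => h ⟨c, ?_⟩)
        intro v hv
        rw [← e] at hv
        exact End.mem_eigenspace_iff.1 hv.2
      · refine End.mem_eigenspace_iff.2 ?_
        rw [← End.mul_apply, hA u hu g hg, End.mul_apply, End.mem_eigenspace_iff.1 hv.2, map_smul]
    choose S S1 S2 S3 using h1
    obtain ⟨T, T1, T2, T3⟩ := glue ρ u B (hB u hu) S S1 S2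
    refine ⟨T, T1, T2, fun g hg v hv => ?_⟩
    obtain ⟨c, hc⟩ := (T3 v).1 hv
    exact S3 c g hg v hc

omit [Finite G] [FiniteDimensional ℂ V] in
theorem inv_apply_apply (ρ : G →* End ℂ V) (g : G) (v : V) : ρ g⁻¹ (ρ g v) = v := by
  rw [← Module.End.mul_apply, ← map_mul, inv_mul_cancel, map_one, Module.End.one_apply]

omit [Finite G] [FiniteDimensional ℂ V] in
theorem apply_inv_apply (ρ : G →* End ℂ V) (g : G) (v : V) : ρ g (ρ g⁻¹ v) = v := by
  rw [← Module.End.mul_apply, ← map_mul, mul_inv_cancel, map_one, Module.End.one_apply]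

omit [Finite G] [FiniteDimensional ℂ V] in
theorem scalar_ne_zero (ρ : G →* End ℂ V) (u : G) (B : Submodule ℂ V)
    (h : ∃ c : ℂ, ∀ v ∈ B, ρ u v = c • v) : ∃ c : ℂ, c ≠ 0 ∧ ∀ v ∈ B, ρ u v = c • v := by
  obtain ⟨c, hc⟩ := h
  by_cases h0 : c = 0
  · refine ⟨1, one_ne_zero, fun v hv => ?_⟩
    have h1 : ρ u v = 0 := by rw [hc v hv, h0, zero_smul]
    have h2 : v = 0 := by rw [← inv_apply_apply ρ u v, h1, map_zero]
    rw [h2, map_zero, smul_zero]
  · exact ⟨c, h0, hc⟩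

/-- the elements of `P` which are scalar on `B` -/
def scalSub (ρ : G →* End ℂ V) (P : Subgroup G) (B : Submodule ℂ V) : Subgroup P where
  carrier := {u | ∃ c : ℂ, ∀ v ∈ B, ρ u v = c • v}
  one_mem' := ⟨1, fun v _ => by simp⟩
  mul_mem' := by
    rintro x y ⟨c, hc⟩ ⟨d, hd⟩
    refine ⟨d * c, fun v hv => ?_⟩
    rw [Subgroup.coe_mul, map_mul, Module.End.mul_apply, hd v hv, map_smul, hc v hv, smul_smul]
  inv_mem' := by
    intro x hx
    obtain ⟨c, h0, hc⟩ := scalar_ne_zero ρ x B hx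
    refine ⟨c⁻¹, fun v hv => ?_⟩
    have h1 := inv_apply_apply ρ x v
    rw [hc v hv, map_smul] at h1
    rw [Subgroup.coe_inv]
    calc ρ (x : G)⁻¹ v = c⁻¹ • c • ρ (x : G)⁻¹ v := by
          rw [smul_smul, inv_mul_cancel₀ h0, one_smul]
      _ = c⁻¹ • v := by rw [h1]

/-- the elements of `P` which are scalar on `B` form a normal subgroup of `P`; the quotient is a
nontrivial group of prime power order, so its centre is nontrivial -/
theorem exists_central {p : ℕ} (hp : p.Prime) (ρ : G →* End ℂ V) (P : Subgroup G)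
    (hP : IsPGroup p P) (B : Submodule ℂ V) (hB : ∀ g ∈ P, ∀ v ∈ B, ρ g v ∈ B)
    (h : ∃ u ∈ P, ¬ ∃ c : ℂ, ∀ v ∈ B, ρ u v = c • v) :
    ∃ u ∈ P, (¬ ∃ c : ℂ, ∀ v ∈ B, ρ u v = c • v) ∧
      ∀ g ∈ P, ∃ c : ℂ, c ≠ 0 ∧ ∀ v ∈ B, ρ u (ρ g v) = c • ρ g (ρ u v) := by
  have : Fact p.Prime := ⟨hp⟩
  have hN : (scalSub ρ P B).Normal := ⟨by
    rintro n ⟨c, hc⟩ g
    refine ⟨c, fun v hv => ?_⟩
    rw [Subgroup.coe_mul, Subgroup.coe_mul, Subgroup.coe_inv, map_mul, map_mul,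
      Module.End.mul_apply, Module.End.mul_apply, hc _ (hB _ (P.inv_mem g.2) v hv), map_smul,
      apply_inv_apply]⟩
  obtain ⟨u0, hu0, hn0⟩ := h
  have : Nontrivial (P ⧸ scalSub ρ P B) :=
    ⟨⟨QuotientGroup.mk ⟨u0, hu0⟩, 1, fun e => hn0 ((QuotientGroup.eq_one_iff _).1 e)⟩⟩
  have hQ : IsPGroup p (P ⧸ scalSub ρ P B) := hP.to_quotient _
  have := hQ.center_nontrivial
  obtain ⟨z, hz⟩ := exists_ne (1 : Subgroup.center (P ⧸ scalSub ρ P B))
  obtain ⟨u, hu⟩ := QuotientGroup.mk_surjective (z : P ⧸ scalSub ρ P B)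
  refine ⟨u, u.2, fun hs => hz (Subtype.ext ?_), fun g hg => ?_⟩
  · rw [← hu]
    exact (QuotientGroup.eq_one_iff _).2 hs
  · have hc := Subgroup.mem_center_iff.1 z.2 (QuotientGroup.mk ⟨g, hg⟩)
    rw [← hu] at hc
    have hm : u * ⟨g, hg⟩ * (⟨g, hg⟩ * u)⁻¹ ∈ scalSub ρ P B := by
      rw [← QuotientGroup.eq_one_iff, QuotientGroup.mk_mul, QuotientGroup.mk_mul,
        QuotientGroup.mk_inv, QuotientGroup.mk_mul, hc, mul_inv_cancel]
    obtain ⟨c, h0, hc⟩ := scalar_ne_zero ρ _ B hm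
    refine ⟨c, h0, fun v hv => ?_⟩
    rw [← hc _ (hB g hg _ (hB u u.2 v hv)), ← Module.End.mul_apply (ρ g), ← map_mul,
      ← Module.End.mul_apply, ← map_mul, ← Module.End.mul_apply, ← map_mul]
    congr 2
    simp only [Subgroup.coe_mul, Subgroup.coe_inv]
    group

/-- induction on the dimension of `B`, for all `P`. Take `u` from `exists_central` and `γ g` with
`ρ u (ρ g v) = γ g • ρ g (ρ u v)` on `B`; `g` maps `E c = B ⊓ eigenspace c` onto `E (γ g * c)`,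
and `H = {g ∈ P | γ g = 1}` keeps every `E c`. Let `S0 c` be a frame of `H` on `E c`. For the
relation `c ~ γ g * c` on `ℂ` choose `r c` (`Quotient.out`) and `t c ∈ P` with
`c = γ (t c) * r c`, put `S c = (S0 (r c)).image (ρ (t c))` and `glue`; for `c' = γ g * c` one has
`r c' = r c` and `(t c')⁻¹ * g * t c ∈ H` if `c ≠ 0` (and `E 0 = ⊥`) -/
theorem mon {p : ℕ} (hp : p.Prime) (ρ : G →* End ℂ V) (P : Subgroup G) (hP : IsPGroup p P)
    (B : Submodule ℂ V) (hB : ∀ g ∈ P, ∀ v ∈ B, ρ g v ∈ B) :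
    ∃ S : Finset V, LinearIndepOn ℂ id (S : Set V) ∧ Submodule.span ℂ (S : Set V) = B ∧
      ∀ g ∈ P, ∀ v ∈ S, ∃ c : ℂ, ∃ w ∈ S, ρ g v = c • w := by
  classical
  induction hn : finrank ℂ B using Nat.strong_induction_on generalizing P B with
  | _ n ih =>
  by_cases hs : ∃ u ∈ P, ¬ ∃ c : ℂ, ∀ v ∈ B, ρ u v = c • v
  swap
  · obtain ⟨S, a1, a2, -⟩ := diag ρ ⊥ (fun x hx y _ => by
      rw [Subgroup.mem_bot.1 hx, map_one, one_mul, mul_one]) B (fun g hg v hv => by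
      rw [Subgroup.mem_bot.1 hg, map_one]; exact hv)
    refine ⟨S, a1, a2, fun g hg v hv => ?_⟩
    by_contra hc
    refine hs ⟨g, hg, ?_⟩
    rintro ⟨c, h⟩
    exact hc ⟨c, v, hv, h v (a2 ▸ Submodule.subset_span hv)⟩
  obtain ⟨u, hu, hns, hγ⟩ := exists_central hp ρ P hP B hB hs
  have hinv : ∀ (g : G) (v : V), ρ g⁻¹ (ρ g v) = v := fun g v => by
    rw [← End.mul_apply, ← map_mul, inv_mul_cancel, map_one, End.one_apply]
  have hinv' : ∀ (g : G) (v : V), ρ g (ρ g⁻¹ v) = v := fun g v => by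
    simpa using hinv g⁻¹ v
  have hinj : ∀ g : G, Function.Injective (ρ g) := fun g =>
    Function.LeftInverse.injective (hinv g)
  obtain ⟨E, hE⟩ : ∃ E : ℂ → Submodule ℂ V, ∀ c, E c = B ⊓ (ρ u).eigenspace c :=
    ⟨_, fun _ => rfl⟩
  let Rl : G → ℂ → ℂ → Prop := fun g c c' => ∀ v, v ∈ E c ↔ ρ g v ∈ E c'
  have r1 : ∀ c, Rl 1 c c := fun c v => by rw [map_one, End.one_apply]
  have r2 : ∀ g c c', Rl g c c' → Rl g⁻¹ c' c := fun g c c' h v => by rw [h, hinv']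
  have r3 : ∀ g g' c c' c'', Rl g c c' → Rl g' c' c'' → Rl (g' * g) c c'' :=
    fun g g' c c' c'' h h' v => by rw [h, h', map_mul, End.mul_apply]
  have r4 : ∀ g ∈ P, ∀ c, ∃ c', Rl g c c' := fun g hg c => by
    obtain ⟨a, ha, h⟩ := hγ g hg
    refine ⟨a * c, fun v => ?_⟩
    simp only [hE, Submodule.mem_inf, End.mem_eigenspace_iff]
    constructor
    · rintro ⟨h1, h2⟩
      exact ⟨hB g hg v h1, by rw [h v h1, h2, map_smul, mul_smul]⟩
    · rintro ⟨h1, h2⟩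
      have h3 : v ∈ B := hinv g v ▸ hB g⁻¹ (P.inv_mem hg) _ h1
      refine ⟨h3, hinj g ?_⟩
      rw [h v h3, mul_smul] at h2
      rw [map_smul]
      exact smul_right_injective V ha h2
  let H : ℂ → Subgroup G := fun c =>
    { carrier := {g | g ∈ P ∧ Rl g c c}
      one_mem' := ⟨P.one_mem, r1 c⟩
      mul_mem' := fun {a b} ha hb => ⟨P.mul_mem ha.1 hb.1, r3 _ _ _ _ _ hb.2 ha.2⟩
      inv_mem' := fun {a} ha => ⟨P.inv_mem ha.1, r2 _ _ _ ha.2⟩ }
  have hlt : ∀ c, finrank ℂ (E c) < n := fun c => by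
    rw [← hn]
    refine Submodule.finrank_lt_finrank_of_lt (lt_of_le_of_ne (hE c ▸ inf_le_left) fun e => ?_)
    refine hns ⟨c, fun v hv => ?_⟩
    rw [← e, hE] at hv
    exact End.mem_eigenspace_iff.1 hv.2
  choose S0 s1 s2 s3 using fun c => ih _ (hlt c) (H c)
    (hP.to_le (show H c ≤ P from fun g hg => hg.1)) (E c) (fun g hg v hv => (hg.2 v).1 hv) rfl
  let st : Setoid ℂ := ⟨fun c c' => ∃ g ∈ P, Rl g c c', fun c => ⟨1, P.one_mem, r1 c⟩,
    fun ⟨g, hg, h⟩ => ⟨g⁻¹, P.inv_mem hg, r2 _ _ _ h⟩,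
    fun ⟨g, hg, h⟩ ⟨g', hg', h'⟩ => ⟨g' * g, P.mul_mem hg' hg, r3 _ _ _ _ _ h h'⟩⟩
  obtain ⟨r, hr1, hr2⟩ : ∃ r : ℂ → ℂ, (∀ c, ∃ g ∈ P, Rl g (r c) c) ∧
      ∀ c c', (∃ g ∈ P, Rl g c c') → r c = r c' :=
    ⟨fun c => (Quotient.mk st c).out, fun c => Quotient.mk_out (s := st) c,
      fun c c' h => congrArg Quotient.out (Quotient.sound (s := st) h)⟩
  choose t t1 t2 using hr1
  obtain ⟨T, a1, a2, a3⟩ := glue ρ u B (hB u hu) (fun c => (S0 (r c)).image (ρ (t c)))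
    (fun c => by
      rw [Finset.coe_image]
      exact ((s1 (r c)).map_injOn (ρ (t c)) (hinj _).injOn).id_image)
    (fun c => by
      rw [Finset.coe_image, ← Submodule.map_span, s2, ← hE]
      ext v
      rw [Submodule.mem_map]
      constructor
      · rintro ⟨w, hw, rfl⟩
        exact (t2 c w).1 hw
      · intro hv
        exact ⟨ρ (t c)⁻¹ v, (r2 _ _ _ (t2 c) v).1 hv, hinv' _ _⟩)
  refine ⟨T, a1, a2, fun g hg v hv => ?_⟩
  obtain ⟨c, hc⟩ := (a3 v).1 hv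
  obtain ⟨v0, hv0, rfl⟩ := Finset.mem_image.1 hc
  obtain ⟨c', hc'⟩ := r4 g hg c
  have e : r c = r c' := hr2 c c' ⟨g, hg, hc'⟩
  have hm : (t c')⁻¹ * (g * t c) ∈ H (r c) :=
    ⟨P.mul_mem (P.inv_mem (t1 c')) (P.mul_mem hg (t1 c)),
      r3 _ _ _ _ _ (r3 _ _ _ _ _ (t2 c) hc') (e ▸ r2 _ _ _ (t2 c'))⟩
  obtain ⟨a, w, hw, h⟩ := s3 (r c) _ hm v0 hv0
  refine ⟨a, ρ (t c') w, (a3 _).2 ⟨c', Finset.mem_image_of_mem _ (e ▸ hw)⟩, ?_⟩
  rw [map_mul, map_mul, End.mul_apply, End.mul_apply] at h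
  rw [← map_smul, ← h, hinv']

omit [Finite G] in
theorem card_frame {S : Finset V} {B : Submodule ℂ V} (h1 : LinearIndepOn ℂ id (S : Set V))
    (h2 : Submodule.span ℂ (S : Set V) = B) : S.card = finrank ℂ B := by
  rw [← h2, finrank_span_finset_eq_card h1]

/-- the elements which keep every line of a family of nonzero vectors -/
def lineSub (ρ : G →* End ℂ V) (S : Finset V) (hS : ∀ v ∈ S, v ≠ 0) : Subgroup G where
  carrier := {g | ∀ v ∈ S, ∃ c : ℂ, ρ g v = c • v}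
  one_mem' := fun v _ => ⟨1, by simp⟩
  mul_mem' := by
    intro x y hx hy v hv
    obtain ⟨c, hc⟩ := hx v hv
    obtain ⟨d, hd⟩ := hy v hv
    exact ⟨d * c, by rw [map_mul, Module.End.mul_apply, hd, map_smul, hc, smul_smul]⟩
  inv_mem' := by
    intro x hx v hv
    obtain ⟨c, hc⟩ := hx v hv
    have h1 := inv_apply_apply ρ x v
    rw [hc, map_smul] at h1
    have h0 : c ≠ 0 := fun e => hS v hv (by rw [← h1, e, zero_smul])
    refine ⟨c⁻¹, ?_⟩
    calc ρ x⁻¹ v = c⁻¹ • c • ρ x⁻¹ v := by rw [smul_smul, inv_mul_cancel₀ h0, one_smul]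
      _ = c⁻¹ • v := by rw [h1]

/-- the elements which keep every line of the frame form a subgroup `A` with commuting images;
`g ↦ (v ↦ w)` is a map from `P` to the functions `S → S` whose fibres lie in cosets of `A` -/
theorem mon_card {p : ℕ} (hp : p.Prime) (ρ : G →* End ℂ V) (hinj : Function.Injective ρ)
    (a0 : ℕ) (h1 : ∀ A : Subgroup G, (∀ x ∈ A, ∀ y ∈ A, x * y = y * x) → Nat.card A ≤ a0)
    (P : Subgroup G) (hP : IsPGroup p P) :
    Nat.card P ≤ finrank ℂ V ^ finrank ℂ V * a0 := by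
  obtain ⟨S, hli, hsp, hS⟩ := mon hp ρ P hP ⊤ (fun _ _ _ _ => Submodule.mem_top)
  have hcard : S.card = finrank ℂ V := by rw [card_frame hli hsp, finrank_top]
  have hne : ∀ v ∈ S, v ≠ 0 := fun v hv => hli.ne_zero (i := v) hv
  have hA : Nat.card (lineSub ρ S hne) ≤ a0 := by
    refine h1 _ fun x hx y hy => hinj ?_
    refine LinearMap.ext_on hsp fun v hv => ?_
    obtain ⟨c, hc⟩ := hx v hv
    obtain ⟨d, hd⟩ := hy v hv
    rw [map_mul, map_mul, Module.End.mul_apply, Module.End.mul_apply, hc, hd, map_smul, map_smul,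
      hc, hd, smul_comm]
  have hw : ∀ (g : P) (v : S), ∃ w : S, ∃ c : ℂ, ρ g v = c • (w : V) := fun g v => by
    obtain ⟨c, w, hw, e⟩ := hS g g.2 v v.2
    exact ⟨⟨w, hw⟩, c, e⟩
  choose φ hφ using hw
  have hfib : ∀ g g' : P, φ g = φ g' → (g : G)⁻¹ * g' ∈ lineSub ρ S hne := by
    intro g g' e v hv
    obtain ⟨c, hc⟩ := hφ g ⟨v, hv⟩
    obtain ⟨d, hd⟩ := hφ g' ⟨v, hv⟩
    have h2 := inv_apply_apply ρ g v
    rw [hc, map_smul] at h2
    have h0 : c ≠ 0 := fun e => hne v hv (by rw [← h2, e, zero_smul])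
    refine ⟨d * c⁻¹, ?_⟩
    rw [map_mul, Module.End.mul_apply, hd, map_smul, ← e, mul_smul]
    congr 1
    calc ρ (g : G)⁻¹ (φ g ⟨v, hv⟩ : V) = c⁻¹ • c • ρ (g : G)⁻¹ (φ g ⟨v, hv⟩ : V) := by
          rw [smul_smul, inv_mul_cancel₀ h0, one_smul]
      _ = c⁻¹ • v := by rw [h2]
  let ψ : P → (S → S) × lineSub ρ S hne := fun g =>
    (φ g, ⟨((Function.invFun φ (φ g) : P) : G)⁻¹ * g,
      hfib _ _ (Function.invFun_eq ⟨g, rfl⟩)⟩)
  have hψ : Function.Injective ψ := by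
    intro g g' e
    have e1 : φ g = φ g' := congrArg Prod.fst e
    have e2 : ((Function.invFun φ (φ g) : P) : G)⁻¹ * g =
        ((Function.invFun φ (φ g') : P) : G)⁻¹ * g' := congrArg (fun x => (x.2 : G)) e
    rw [e1] at e2
    exact Subtype.ext (mul_left_cancel e2)
  calc Nat.card P ≤ Nat.card ((S → S) × lineSub ρ S hne) := Nat.card_le_card_of_injective ψ hψ
    _ = finrank ℂ V ^ finrank ℂ V * Nat.card (lineSub ρ S hne) := by
        rw [Nat.card_prod, Nat.card_fun, Nat.card_eq_finsetCard, hcard]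
    _ ≤ _ := Nat.mul_le_mul_left _ hA

end Pool.Agent.Lib.MP_d87a8f_pr.K
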