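import Mathlib
import Pool.Agent.Lib.MP_d87a8f_pr.K.Ct
import Pool.Agent.Lib.MP_d87a8f_pr.K.Mon

/-!
Systems of invariant subspaces and their refinement by eigenspaces.
-/

namespace Pool.Agent.Lib.MP_d87a8f_pr.K

open Module

variable {G : Type} [Group G] [Finite G] {V : Type} [AddCommGroup V] [Module ℂ V]
  [FiniteDimensional ℂ V]

/-- the weight of a system of subspaces -/
noncomputable def wt (M : Multiset (Submodule ℂ V)) : ℕ :=
  (M.map fun B : Submodule ℂ V => finrank ℂ B ^ finrank ℂ B).prod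

/-- the sum of the dimensions -/
noncomputable def dm (M : Multiset (Submodule ℂ V)) : ℕ :=
  (M.map fun B : Submodule ℂ V => finrank ℂ B).sum

/-- the elements which keep every subspace of the system -/
def stb (ρ : G →* End ℂ V) (M : Multiset (Submodule ℂ V)) : Subgroup G where
  carrier := {g | ∀ B ∈ M, ∀ v, ρ g v ∈ B ↔ v ∈ B}
  one_mem' := fun B _ v => by simp
  mul_mem' := fun {a b} ha hb B hB v => by
    rw [map_mul, End.mul_apply, ha B hB, hb B hB]
  inv_mem' := fun {a} ha B hB v => by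
    rw [← ha B hB, ← End.mul_apply, ← map_mul, mul_inv_cancel, map_one, End.one_apply]

/-- the parts of `B` in the eigenspaces of `ρ u` -/
noncomputable def ref (ρ : G →* End ℂ V) (B : Submodule ℂ V) (u : G) :
    Multiset (Submodule ℂ V) :=
  (Polynomial.nthRootsFinset (Nat.card G) (1 : ℂ)).val.map fun c => B ⊓ (ρ u).eigenspace c

omit [FiniteDimensional ℂ V] in
theorem wt_pos (M : Multiset (Submodule ℂ V)) : 0 < wt M := by
  refine Nat.pos_of_ne_zero (Multiset.prod_ne_zero fun h => ?_)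
  obtain ⟨B, -, hB⟩ := Multiset.mem_map.1 h
  exact (Nat.pow_eq_zero.1 hB).2 (Nat.pow_eq_zero.1 hB).1

/-- `sup_eig` -/
theorem sup_ref (ρ : G →* End ℂ V) (B : Submodule ℂ V) (u : G) (hB : ∀ v ∈ B, ρ u v ∈ B) :
    (ref ρ B u).sup = B :=
  sup_eig ρ u B hB

theorem sum_finrank_le {ι : Type} {F : ι → Submodule ℂ V} (h : iSupIndep F) (s : Finset ι) :
    ∑ c ∈ s, finrank ℂ (F c) ≤ finrank ℂ (s.sup F : Submodule ℂ V) := by
  classical
  induction s using Finset.induction_on with
  | empty => simp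
  | insert a s ha ih =>
    have hd : F a ⊓ s.sup F = ⊥ := disjoint_iff.1 ((h a).mono_right
      (Finset.sup_le fun c hc => le_iSup₂_of_le c (ne_of_mem_of_not_mem hc ha) le_rfl))
    have := Submodule.finrank_sup_add_finrank_inf_eq (F a) (s.sup F)
    rw [hd, finrank_bot] at this
    rw [Finset.sum_insert ha, Finset.sup_insert]
    omega

omit [Finite G] in
/-- the eigenspaces are independent -/
theorem dm_ref (ρ : G →* End ℂ V) (B : Submodule ℂ V) (u : G) :
    dm (ref ρ B u) ≤ finrank ℂ B := by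
  rw [dm, ref, Multiset.map_map]
  exact (sum_finrank_le (F := fun c => B ⊓ (ρ u).eigenspace c)
    ((End.eigenspaces_iSupIndep (ρ u)).mono fun _ => inf_le_right) _).trans
    (Submodule.finrank_mono (Finset.sup_le fun _ _ => inf_le_left))

/-- `1 - j / m ≤ exp (- j / m)` -/
theorem pow_drop (r j : ℕ) : r ^ (r + j) * 2 ^ j ≤ (r + j) ^ (r + j) := by
  induction j with
  | zero => simp
  | succ j ih =>
    rw [← add_assoc]
    have h1 : r ≤ r + j := Nat.le_add_right _ _
    generalize r + j = m at ih h1 ⊢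
    have h2 := pow_add_mul_le_add_pow (Nat.zero_le m) (Nat.zero_le (2 * m + 1)) (m + 1)
    simp only [Nat.cast_id, Nat.add_sub_cancel, mul_one] at h2
    calc r ^ (m + 1) * 2 ^ (j + 1) = 2 * r * (r ^ m * 2 ^ j) := by ring
      _ ≤ 2 * m * m ^ m := by gcongr
      _ ≤ m ^ (m + 1) + (m + 1) * m ^ m := by rw [pow_succ]; nlinarith [Nat.zero_le (m ^ m)]
      _ ≤ _ := h2

/-- take `c` with the largest dimension `r`; `r < finrank B` since `u` is not scalar, `0 < r` by
`sup_eig`; the weight is at most `r ^ dm ≤ r ^ finrank B`; `pow_drop` -/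
theorem wt_ref (ρ : G →* End ℂ V) (B : Submodule ℂ V) (u : G) (hB : ∀ v ∈ B, ρ u v ∈ B)
    (h : ¬ ∃ c : ℂ, ∀ v ∈ B, ρ u v = c • v) :
    ∃ (c : ℂ) (j : ℕ), 0 < j ∧ j < finrank ℂ B ∧
      finrank ℂ (B ⊓ (ρ u).eigenspace c : Submodule ℂ V) + j = finrank ℂ B ∧
      wt (ref ρ B u) * 2 ^ j ≤ finrank ℂ B ^ finrank ℂ B := by
  obtain ⟨c, hc, hm⟩ := (Polynomial.nthRootsFinset (Nat.card G) (1 : ℂ)).exists_max_image
    (fun c => finrank ℂ (B ⊓ (ρ u).eigenspace c : Submodule ℂ V))
    ⟨1, Polynomial.one_mem_nthRootsFinset Nat.card_pos⟩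
  have hlt : finrank ℂ (B ⊓ (ρ u).eigenspace c : Submodule ℂ V) < finrank ℂ B :=
    Submodule.finrank_lt_finrank_of_lt (lt_of_le_of_ne inf_le_left fun e =>
      h ⟨c, fun v hv => End.mem_eigenspace_iff.1 (e.ge hv).2⟩)
  have hpos : 0 < finrank ℂ (B ⊓ (ρ u).eigenspace c : Submodule ℂ V) := by
    refine Nat.pos_of_ne_zero fun e => h ⟨0, fun v hv => ?_⟩
    have hb : B ≤ ⊥ := (sup_eig ρ u B hB).ge.trans (Finset.sup_le fun d hd =>
      (Submodule.finrank_eq_zero.1 (Nat.le_zero.1 (e ▸ hm d hd))).le)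
    rw [(Submodule.mem_bot ℂ).1 (hb hv)]; simp
  obtain ⟨j, hj⟩ := Nat.exists_eq_add_of_le hlt.le
  refine ⟨c, j, by omega, by omega, hj.symm, ?_⟩
  have hd := dm_ref ρ B u
  generalize finrank ℂ (B ⊓ (ρ u).eigenspace c : Submodule ℂ V) = r at hm hpos hj
  have hw : wt (ref ρ B u) ≤ r ^ dm (ref ρ B u) := by
    rw [wt, dm, ref, Multiset.map_map, Multiset.map_map]
    refine (Finset.prod_le_prod' fun d hd => Nat.pow_le_pow_left (hm d hd) _).trans ?_
    exact (Finset.prod_pow_eq_pow_sum _ _ _).le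
  rw [hj] at hd ⊢
  exact (Nat.mul_le_mul_right _ (hw.trans (Nat.pow_le_pow_right hpos hd))).trans (pow_drop r j)

omit [Finite G] [FiniteDimensional ℂ V] in
theorem ref_congr (ρ : G →* End ℂ V) (B : Submodule ℂ V) {u u' : G}
    (h : ∀ v ∈ B, ρ u v = ρ u' v) : ref ρ B u = ref ρ B u' := by
  refine Multiset.map_congr rfl fun c _ => Submodule.ext fun v => ?_
  simp only [Submodule.mem_inf, End.mem_eigenspace_iff]
  exact and_congr_right fun hv => by rw [h v hv]

omit [Finite G] [FiniteDimensional ℂ V] in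
theorem mem_stb_ref (ρ : G →* End ℂ V) (B : Submodule ℂ V) (M : Multiset (Submodule ℂ V))
    {x u : G} (hx : x ∈ stb ρ (B ::ₘ M)) (h : x * u = u * x) : x ∈ stb ρ (ref ρ B u + M) := by
  intro C hC v
  rcases Multiset.mem_add.1 hC with hC | hC
  · obtain ⟨c, -, rfl⟩ := Multiset.mem_map.1 hC
    simp only [Submodule.mem_inf, End.mem_eigenspace_iff]
    refine and_congr (hx B (Multiset.mem_cons_self _ _) v) ?_
    rw [← End.mul_apply, ← map_mul, ← h, map_mul, End.mul_apply, ← map_smul]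
    refine ⟨fun e => ?_, fun e => by rw [e]⟩
    have := congrArg (ρ x⁻¹) e
    simpa only [← End.mul_apply (ρ x⁻¹), ← map_mul, inv_mul_cancel, map_one, End.one_apply]
      using this
  · exact hx C (Multiset.mem_cons_of_mem hC) v

/-- the elements which are scalar on `B` -/
def scalOn (ρ : G →* End ℂ V) (B : Submodule ℂ V) : Subgroup G where
  carrier := {x | ∃ c : ℂ, ∀ v ∈ B, ρ x v = c • v}
  one_mem' := ⟨1, fun v _ => by simp⟩
  mul_mem' := by
    rintro a b ⟨c, hc⟩ ⟨e, he⟩
    exact ⟨e * c, fun v hv => by rw [map_mul, End.mul_apply, he v hv, map_smul, hc v hv, smul_smul]⟩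
  inv_mem' := by
    rintro a ⟨c, hc⟩
    refine ⟨c⁻¹, fun v hv => ?_⟩
    have h : c • ρ a⁻¹ v = v := by
      rw [← map_smul, ← hc v hv, ← End.mul_apply, ← map_mul, inv_mul_cancel, map_one, End.one_apply]
    by_cases h0 : c = 0
    · rw [h0, zero_smul] at h
      rw [← h, map_zero, smul_zero]
    · rw [eq_inv_smul_iff₀ h0, h]

/-- the elements which are scalar on every subspace form a subgroup with commuting elements -/
theorem scal_card (ρ : G →* End ℂ V) (hinj : Function.Injective ρ) (a0 : ℕ)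
    (h1 : ∀ A : Subgroup G, (∀ x ∈ A, ∀ y ∈ A, x * y = y * x) → Nat.card A ≤ a0)
    (M : Multiset (Submodule ℂ V)) (hM : M.sup = ⊤) : ∃ T : Finset G, T.card ≤ a0 ∧
      ∀ x : G, (∀ B ∈ M, ∃ c : ℂ, ∀ v ∈ B, ρ x v = c • v) → x ∈ T := by
  classical
  have h2 := h1 (⨅ B ∈ M, scalOn ρ B) fun x hx y hy => by
    apply hinj
    rw [map_mul, map_mul]
    have h3 : M.sup ≤ LinearMap.eqLocus (ρ x * ρ y) (ρ y * ρ x) := by
      refine Multiset.sup_le.mpr fun B hB v hv => ?_
      obtain ⟨c, hc⟩ := Subgroup.mem_iInf.mp (Subgroup.mem_iInf.mp hx B) hB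
      obtain ⟨e, he⟩ := Subgroup.mem_iInf.mp (Subgroup.mem_iInf.mp hy B) hB
      rw [LinearMap.mem_eqLocus, End.mul_apply, End.mul_apply, he v hv, hc v hv, map_smul, map_smul,
        he v hv, hc v hv, smul_comm]
    rw [hM] at h3
    exact LinearMap.ext fun v => h3 Submodule.mem_top
  refine ⟨(Set.toFinite ((⨅ B ∈ M, scalOn ρ B : Subgroup G) : Set G)).toFinset, ?_, fun x hx => ?_⟩
  · rw [← Set.ncard_eq_toFinset_card, ← Nat.card_coe_set_eq]
    exact h2
  · rw [Set.Finite.mem_toFinset]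
    exact Subgroup.mem_iInf.mpr fun B => Subgroup.mem_iInf.mpr fun hB => hx B hB

/-- the elements which are scalar on `B` form a subgroup; `pow_part` -/
theorem exists_pow (ρ : G →* End ℂ V) (B : Submodule ℂ V) {x : G}
    (h : ¬ ∃ c : ℂ, ∀ v ∈ B, ρ x v = c • v) : ∃ n p k : ℕ, p.Prime ∧ 0 < k ∧
      orderOf (x ^ n) = p ^ k ∧ ¬ ∃ c : ℂ, ∀ v ∈ B, ρ (x ^ n) v = c • v := by
  exact pow_part (scalOn ρ B) h

open Classical in
/-- `g = f - c` maps `B = span S` onto a space of dimension `j`; choose at most `j` vectors of `S`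
whose images span it (`exists_linearIndepOn_extension` or `Submodule.exists_finset_span_eq...`);
each image lies in the span of two vectors of `S`, so `g B ≤ span U` with `U ⊆ S`, `|U| ≤ 2 j`;
if `g v ≠ 0` then the coordinate of `g v` at `v` is not zero or `c = 0`, so `v ∈ U` -/
theorem moved (f : End ℂ V) (S : Finset V) (h1 : LinearIndepOn ℂ id (S : Set V))
    (hf : ∀ v ∈ S, ∃ c : ℂ, ∃ w ∈ S, f v = c • w) {c : ℂ} (hc : c ≠ 0) {j : ℕ}
    (hj : finrank ℂ (Submodule.span ℂ (S : Set V) ⊓ f.eigenspace c : Submodule ℂ V) + j =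
      finrank ℂ (Submodule.span ℂ (S : Set V))) :
    (S.filter fun v => f v ≠ c • v).card ≤ 2 * j := by
  obtain ⟨g, hg⟩ : ∃ g : End ℂ V, ∀ v, g v = f v - c • v :=
    ⟨f - c • LinearMap.id, fun v => by simp⟩
  have hker : f.eigenspace c = LinearMap.ker g := by
    ext v
    rw [End.mem_eigenspace_iff, LinearMap.mem_ker, hg, sub_eq_zero]
  have hdim : finrank ℂ (Submodule.span ℂ (g '' (S : Set V))) = j := by
    have h := (g.domRestrict (Submodule.span ℂ (S : Set V))).finrank_range_add_finrank_ker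
    rw [LinearMap.range_domRestrict, LinearMap.ker_domRestrict,
      ← Submodule.finrank_map_subtype_eq, Submodule.map_comap_subtype, Submodule.map_span,
      ← hker] at h
    omega
  obtain ⟨b, hb, hsp, hli⟩ := exists_linearIndependent ℂ (g '' (S : Set V))
  have hfin : b.Finite := (S.finite_toSet.image g).subset hb
  lift b to Finset V using hfin
  have hcard : b.card = j := by
    rw [← hdim, ← hsp, finrank_span_finset_eq_card hli]
  have hch : ∀ x : V, ∃ U : Finset V, U ⊆ S ∧ U.card ≤ 2 ∧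
      (x ∈ b → x ∈ Submodule.span ℂ (U : Set V)) := by
    intro x
    by_cases hx : x ∈ b
    · obtain ⟨t, ht, rfl⟩ := hb hx
      obtain ⟨a, w, hw, hfw⟩ := hf t ht
      refine ⟨{t, w}, ?_, Finset.card_le_two, fun _ => ?_⟩
      · intro y hy
        rcases Finset.mem_insert.1 hy with rfl | hy
        · exact ht
        · rw [Finset.mem_singleton.1 hy]; exact hw
      · rw [hg, hfw]
        exact Submodule.sub_mem _
          (Submodule.smul_mem _ _ (Submodule.subset_span (by simp)))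
          (Submodule.smul_mem _ _ (Submodule.subset_span (by simp)))
    · exact ⟨∅, Finset.empty_subset _, by simp, fun h => absurd h hx⟩
  choose U hUS hU2 hUx using hch
  have hsub : (S.filter fun v => f v ≠ c • v) ⊆ b.biUnion U := by
    intro v hv
    obtain ⟨hvS, hne⟩ := Finset.mem_filter.1 hv
    by_contra hvU
    have hnot : v ∉ Submodule.span ℂ ((S : Set V) \ {v}) := by
      have := h1.notMem_span (i := v) hvS
      simpa using this
    have hgv : g v ∈ Submodule.span ℂ ((S : Set V) \ {v}) := by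
      have h2 : g v ∈ Submodule.span ℂ (b : Set V) := by
        rw [hsp]; exact Submodule.subset_span ⟨v, hvS, rfl⟩
      refine Submodule.span_le.2 (fun x hx => ?_) h2
      have h3 : (U x : Set V) ⊆ (S : Set V) \ {v} := fun y hy => ⟨hUS x hy, fun h =>
        hvU (Finset.mem_biUnion.2 ⟨x, hx, by rw [← Set.mem_singleton_iff.1 h]; exact hy⟩)⟩
      exact Submodule.span_mono h3 (hUx x hx)
    obtain ⟨a, w, hw, hfw⟩ := hf v hvS
    apply hnot
    by_cases hwv : w = v
    · subst hwv
      have hac : a - c ≠ 0 := by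
        intro h
        exact hne (by rw [hfw, sub_eq_zero.1 h])
      rw [hg, hfw, ← sub_smul] at hgv
      exact (Submodule.smul_mem_iff _ hac).1 hgv
    · have h3 : a • w ∈ Submodule.span ℂ ((S : Set V) \ {v}) :=
        Submodule.smul_mem _ _ (Submodule.subset_span ⟨hw, hwv⟩)
      have h4 := Submodule.sub_mem _ h3 hgv
      rw [hg, hfw, sub_sub_cancel] at h4
      exact (Submodule.smul_mem_iff _ hc).1 h4
  calc _ ≤ (b.biUnion U).card := Finset.card_le_card hsub
    _ ≤ ∑ x ∈ b, (U x).card := Finset.card_biUnion_le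
    _ ≤ ∑ _x ∈ b, 2 := Finset.sum_le_sum fun x _ => hU2 x
    _ = 2 * j := by rw [Finset.sum_const, hcard, smul_eq_mul, mul_comm]

open Classical in
/-- for `v, w ∈ S` the scalars `c` with `ρ g v = c • w` for some `g ∈ P` lie in one coset of the
roots of unity of order `q` -/
theorem orb_card (ρ : G →* End ℂ V) (P : Subgroup G) {q : ℕ} (hq : 0 < q)
    (hP : ∀ g ∈ P, g ^ q = 1) (S : Finset V) (h1 : LinearIndepOn ℂ id (S : Set V))
    (hS : ∀ g ∈ P, ∀ v ∈ S, ∃ c : ℂ, ∃ w ∈ S, ρ g v = c • w) :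
    ∃ O : Finset (V × V), O.card ≤ q * S.card ^ 2 ∧ ∀ g ∈ P, ∀ v ∈ S, (v, ρ g v) ∈ O := by
  have hinv : ∀ (g : G) (v : V), ρ g⁻¹ (ρ g v) = v := fun g v => by
    rw [← End.mul_apply, ← map_mul, inv_mul_cancel, map_one, End.one_apply]
  let g₀ : V → V → G := fun v w =>
    if h : ∃ g ∈ P, ∃ c : ℂ, ρ g v = c • w then h.choose else 1
  refine ⟨((Polynomial.nthRootsFinset q (1 : ℂ)) ×ˢ (S ×ˢ S)).image
    fun t => (t.2.1, t.1 • ρ (g₀ t.2.1 t.2.2) t.2.1), ?_, fun g hg v hv => ?_⟩
  · refine Finset.card_image_le.trans ?_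
    rw [Finset.card_product, Finset.card_product, sq]
    refine Nat.mul_le_mul_right _ ?_
    rw [Polynomial.nthRootsFinset_def]
    exact (Multiset.toFinset_card_le _).trans (Polynomial.card_nthRoots _ _)
  · obtain ⟨c, w, hw, hc⟩ := hS g hg v hv
    have hex : ∃ g ∈ P, ∃ c : ℂ, ρ g v = c • w := ⟨g, hg, c, hc⟩
    have hv0 : v ≠ 0 := h1.ne_zero hv
    obtain ⟨hP0, e, he⟩ : g₀ v w ∈ P ∧ ∃ e : ℂ, ρ (g₀ v w) v = e • w := by
      simp only [g₀, dif_pos hex]
      exact hex.choose_spec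
    have he0 : e ≠ 0 := by
      rintro rfl
      apply hv0
      rw [← hinv (g₀ v w) v, he, zero_smul, map_zero]
    have h2 : ρ g v = (c / e) • ρ (g₀ v w) v := by
      rw [he, smul_smul, div_mul_cancel₀ _ he0, hc]
    have h3 : ρ ((g₀ v w)⁻¹ * g) v = (c / e) • v := by
      rw [map_mul, End.mul_apply, h2, map_smul, hinv]
    have h4 : ∀ n : ℕ, ρ (((g₀ v w)⁻¹ * g) ^ n) v = (c / e) ^ n • v := fun n => by
      induction n with
      | zero => simp
      | succ n ih => rw [pow_succ, map_mul, End.mul_apply, h3, map_smul, ih, smul_smul, pow_succ']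
    have h5 := h4 q
    rw [hP _ (P.mul_mem (P.inv_mem hP0) hg), map_one, End.one_apply] at h5
    have h6 : (c / e) ^ q = 1 := by
      apply smul_left_injective ℂ hv0
      simp only [one_smul]
      exact h5.symm
    refine Finset.mem_image.mpr ⟨(c / e, v, w), ?_, Prod.ext rfl h2.symm⟩
    exact Finset.mem_product.mpr
      ⟨(Polynomial.mem_nthRootsFinset hq _).mpr h6, Finset.mem_product.mpr ⟨hv, hw⟩⟩

open Classical in
/-- subsets of `O` with at most `r` elements are images of maps `Fin r → Option O` -/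
theorem card_small {α : Type} (O : Finset α) (r : ℕ) :
    (O.powerset.filter fun t => t.card ≤ r).card ≤ (O.card + 1) ^ r := by
  have h1 : (O.powerset.filter fun t => t.card ≤ r) ⊆
      (Fintype.piFinset fun _ : Fin r => Finset.insertNone O).image
        fun f => Finset.eraseNone (Finset.univ.image f) := by
    intro t ht
    obtain ⟨h2, h3⟩ := Finset.mem_filter.mp ht
    rw [Finset.mem_powerset] at h2
    refine Finset.mem_image.mpr ⟨fun i => if h : i.val < t.card then
      some (t.equivFin.symm ⟨i, h⟩ : α) else none, Fintype.mem_piFinset.mpr fun i => ?_, ?_⟩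
    · split_ifs with h
      · exact Finset.some_mem_insertNone.mpr (h2 (t.equivFin.symm ⟨i, h⟩).2)
      · exact Finset.none_mem_insertNone
    · ext a
      rw [Finset.mem_eraseNone, Finset.mem_image]
      constructor
      · rintro ⟨i, -, hi⟩
        split_ifs at hi with h
        rw [← Option.some.inj hi]
        exact (t.equivFin.symm ⟨i, h⟩).2
      · intro ha
        refine ⟨⟨(t.equivFin ⟨a, ha⟩).val, (t.equivFin ⟨a, ha⟩).2.trans_le h3⟩,
          Finset.mem_univ _, ?_⟩
        rw [dif_pos (t.equivFin ⟨a, ha⟩).2]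
        simp
  refine (Finset.card_le_card h1).trans (Finset.card_image_le.trans ?_)
  simp

/-- `mon`; `q` = the exponent of `P` (the order of one element, at most `Q`); the restriction of
`ρ u` to `B` is fixed by `c` (a root of unity of order `q`, as the eigenspace is not zero) and the
set of pairs `(v, ρ u v)` with `ρ u v ≠ c • v`; `moved`, `orb_card`, `card_small`; choose one `u'`
for each value of these data -/
theorem reps {p : ℕ} (hp : p.Prime) (ρ : G →* End ℂ V) (P : Subgroup G) (hP : IsPGroup p P)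
    {Q D : ℕ} (hQ : ∀ g ∈ P, orderOf g ≤ Q) (B : Submodule ℂ V) (hD : finrank ℂ B ≤ D)
    (hB : ∀ g ∈ P, ∀ v ∈ B, ρ g v ∈ B) (j : ℕ) (hj : j < finrank ℂ B) :
    ∃ R : Finset G, R.card ≤ Q * (Q * D ^ 2 + 1) ^ (2 * j) ∧ ∀ u ∈ P, ∀ c : ℂ,
      finrank ℂ (B ⊓ (ρ u).eigenspace c : Submodule ℂ V) + j = finrank ℂ B →
      ∃ u' ∈ R, ∀ v ∈ B, ρ u v = ρ u' v := by
  classical
  obtain ⟨q, hq0, hqQ, hq⟩ : ∃ q : ℕ, 0 < q ∧ q ≤ Q ∧ ∀ g ∈ P, g ^ q = 1 := by
    have := Fact.mk hp
    obtain ⟨g0, hg0⟩ := Finite.exists_max (fun g : P => orderOf g)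
    refine ⟨orderOf g0, orderOf_pos g0, ?_, fun g hg => ?_⟩
    · rw [← Subgroup.orderOf_coe]
      exact hQ _ g0.2
    · obtain ⟨a, ha⟩ := IsPGroup.iff_orderOf.1 hP ⟨g, hg⟩
      obtain ⟨b, hb⟩ := IsPGroup.iff_orderOf.1 hP g0
      have h1 := hg0 ⟨g, hg⟩
      simp only [ha, hb] at h1
      have h2 : orderOf (⟨g, hg⟩ : P) ∣ orderOf g0 := by
        rw [ha, hb]
        exact pow_dvd_pow _ ((Nat.pow_le_pow_iff_right hp.one_lt).1 h1)
      exact congrArg Subtype.val (orderOf_dvd_iff_pow_eq_one.1 h2)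
  obtain ⟨S, h1, h2, h3⟩ := mon hp ρ P hP B hB
  obtain ⟨O, hO, hO'⟩ := orb_card ρ P hq0 hq S h1 h3
  have hS : S.card ≤ D := (card_frame h1 h2).le.trans hD
  let δ : G → ℂ → Finset (V × V) := fun u c =>
    (S.filter fun v => ρ u v ≠ c • v).image fun v => (v, ρ u v)
  let pick : ℂ × Finset (V × V) → G := fun d => if h : ∃ u, δ u d.1 = d.2 then h.choose else 1
  refine ⟨((Polynomial.nthRootsFinset q (1 : ℂ)) ×ˢ
    (O.powerset.filter fun t => t.card ≤ 2 * j)).image pick, ?_, fun u hu c hc => ?_⟩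
  · refine Finset.card_image_le.trans ?_
    rw [Finset.card_product]
    refine Nat.mul_le_mul ?_ ?_
    · exact ((Multiset.toFinset_card_le _).trans (Polynomial.card_nthRoots q 1)).trans hqQ
    · refine le_trans (by convert card_small O (2 * j)) (Nat.pow_le_pow_left ?_ _)
      exact Nat.succ_le_succ (hO.trans (Nat.mul_le_mul hqQ (Nat.pow_le_pow_left hS 2)))
  · have hcq : c ^ q = 1 := by
      have h4 : (B ⊓ (ρ u).eigenspace c : Submodule ℂ V) ≠ ⊥ := fun h => by
        rw [h, finrank_bot] at hc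
        omega
      obtain ⟨v, hv, hv0⟩ := Submodule.exists_mem_ne_zero_of_ne_bot h4
      have h5 : (ρ u).HasEigenvector c v := ⟨hv.2, hv0⟩
      have h6 := h5.pow_apply q
      rw [← map_pow, hq u hu, map_one, End.one_apply] at h6
      have h7 : (c ^ q - 1) • v = 0 := by rw [sub_smul, one_smul, ← h6, sub_self]
      exact sub_eq_zero.1 ((smul_eq_zero.1 h7).resolve_right hv0)
    have hc0 : c ≠ 0 := fun h => by
      rw [h, zero_pow hq0.ne'] at hcq
      exact zero_ne_one hcq
    have hex : ∃ u', δ u' c = δ u c := ⟨u, rfl⟩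
    refine ⟨pick (c, δ u c), Finset.mem_image_of_mem _ (Finset.mem_product.2 ⟨?_, ?_⟩), ?_⟩
    · exact (Polynomial.mem_nthRootsFinset hq0 1).2 hcq
    · refine Finset.mem_filter.2 ⟨Finset.mem_powerset.2 fun x hx => ?_, ?_⟩
      · obtain ⟨v, hv, rfl⟩ := Finset.mem_image.1 hx
        exact hO' u hu v (Finset.mem_filter.1 hv).1
      · refine Finset.card_image_le.trans ?_
        convert moved (ρ u) S h1 (h3 u hu) hc0 (j := j) (by rw [h2]; exact hc)
    · have h4 : δ (pick (c, δ u c)) c = δ u c := by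
        show δ (if h : ∃ u', δ u' c = δ u c then h.choose else 1) c = δ u c
        rw [dif_pos hex]
        exact hex.choose_spec
      generalize pick (c, δ u c) = u' at h4
      have h5 : ∀ v ∈ (S : Set V), ρ u v = ρ u' v := by
        intro v hv
        by_cases e : ρ u v = c • v
        · by_contra e'
          have a1 : (v, ρ u' v) ∈ δ u' c := Finset.mem_image_of_mem (fun v => (v, ρ u' v))
            (Finset.mem_filter.2 ⟨hv, fun a => e' (e.trans a.symm)⟩)
          rw [h4] at a1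
          obtain ⟨w, hw, a2⟩ := Finset.mem_image.1 a1
          have a3 : w = v := congrArg Prod.fst a2
          exact (Finset.mem_filter.1 hw).2 (a3 ▸ e)
        · have a1 : (v, ρ u v) ∈ δ u c := Finset.mem_image_of_mem (fun v => (v, ρ u v))
            (Finset.mem_filter.2 ⟨hv, e⟩)
          rw [← h4] at a1
          obtain ⟨w, _, a2⟩ := Finset.mem_image.1 a1
          have a3 : w = v := congrArg Prod.fst a2
          have a4 : ρ u' w = ρ u v := congrArg Prod.snd a2
          rw [← a4, a3]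
      intro v hv
      rw [← h2] at hv
      exact LinearMap.eqOn_span h5 hv

end Pool.Agent.Lib.MP_d87a8f_pr.K
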