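import Mathlib
import Pool.Agent.Lib.MP_d87a8f_pr.K.Blk

/-!
The number of conjugacy classes of a linear group with small commutative subgroups.
-/

namespace Pool.Agent.Lib.MP_d87a8f_pr.K

open Module

variable {G : Type} [Group G] [Finite G] {V : Type} [AddCommGroup V] [Module ℂ V]
  [FiniteDimensional ℂ V]

/-- `T` meets the class of every element of `X` -/
def Cov (T : Finset G) (X : Set G) : Prop := ∀ x ∈ X, ∃ g : G, g * x * g⁻¹ ∈ T

/-- `t j * 2 ^ (κ j) ≤ Q R ^ (2 j) W` for `1 ≤ j`: a geometric series with ratio at most `1 / 2` -/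
theorem geo {D Q R κ W : ℕ} (hD : 0 < D) (hQ : 0 < Q) (hκ : 4 * D * Q ^ 2 * R ^ 2 ≤ 2 ^ κ)
    (t : ℕ → ℕ) (ht : ∀ j, 0 < j → t j * 2 ^ (κ * j) ≤ Q * R ^ (2 * j) * W) (J : ℕ) :
    2 * D * Q * ∑ j ∈ Finset.Ioc 0 J, t j ≤ W := by
  have key : ∀ j, 0 < j → 2 * D * Q * t j * 2 ^ j ≤ W := by
    intro j hj
    have h1 := ht j hj
    rcases Nat.eq_zero_or_pos R with rfl | hR
    · rw [zero_pow (by omega), mul_zero, zero_mul, Nat.le_zero, Nat.mul_eq_zero] at h1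
      rcases h1 with h1 | h1
      · simp [h1]
      · exact absurd h1 (by positivity)
    have h2 : (4 * D * Q ^ 2) ^ j * R ^ (2 * j) ≤ 2 ^ (κ * j) := by
      rw [pow_mul R, ← mul_pow, pow_mul]
      exact Nat.pow_le_pow_left hκ j
    have h3 : t j * (4 * D * Q ^ 2) ^ j * R ^ (2 * j) ≤ Q * W * R ^ (2 * j) := by
      calc t j * (4 * D * Q ^ 2) ^ j * R ^ (2 * j)
          = t j * ((4 * D * Q ^ 2) ^ j * R ^ (2 * j)) := by ring
        _ ≤ t j * 2 ^ (κ * j) := Nat.mul_le_mul_left _ h2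
        _ ≤ Q * R ^ (2 * j) * W := h1
        _ = Q * W * R ^ (2 * j) := by ring
    have h4 := Nat.le_of_mul_le_mul_right h3 (by positivity)
    obtain ⟨i, rfl⟩ : ∃ i, j = i + 1 := ⟨j - 1, by omega⟩
    have h5 : 2 ^ i ≤ (4 * D * Q ^ 2) ^ i := by
      refine Nat.pow_le_pow_left ?_ i
      have : 0 < D * Q ^ 2 := by positivity
      nlinarith
    refine Nat.le_of_mul_le_mul_left ?_ hQ
    calc Q * (2 * D * Q * t (i + 1) * 2 ^ (i + 1))
        = t (i + 1) * (4 * D * Q ^ 2) * 2 ^ i := by ring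
      _ ≤ t (i + 1) * (4 * D * Q ^ 2) * (4 * D * Q ^ 2) ^ i := Nat.mul_le_mul_left _ h5
      _ = t (i + 1) * (4 * D * Q ^ 2) ^ (i + 1) := by ring
      _ ≤ Q * W := h4
  have main : ∀ J : ℕ, (2 * D * Q * ∑ j ∈ Finset.Ioc 0 J, t j) * 2 ^ J + W ≤ W * 2 ^ J := by
    intro J
    induction J with
    | zero => simp
    | succ J ih =>
      rw [Finset.sum_Ioc_succ_top (Nat.zero_le J), mul_add]
      have h1 := key (J + 1) (Nat.succ_pos J)
      rw [pow_succ] at h1 ⊢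
      nlinarith
  exact Nat.le_of_mul_le_mul_right (le_trans (Nat.le_add_right _ _) (main J)) (by positivity)

omit [Finite G] in
/-- conjugation by an element which keeps `B` does not change the dimensions -/
theorem finrank_conj (ρ : G →* End ℂ V) (B : Submodule ℂ V) {g : G}
    (hg : ∀ v, ρ g v ∈ B ↔ v ∈ B) (u : G) (c : ℂ) :
    finrank ℂ (B ⊓ (ρ (g * u * g⁻¹)).eigenspace c : Submodule ℂ V) =
      finrank ℂ (B ⊓ (ρ u).eigenspace c : Submodule ℂ V) := by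
  have h1 : ∀ v, ρ g (ρ g⁻¹ v) = v := fun v => by
    rw [← End.mul_apply, ← map_mul, mul_inv_cancel, map_one, End.one_apply]
  have h2 : ∀ v, ρ g⁻¹ (ρ g v) = v := fun v => by
    rw [← End.mul_apply, ← map_mul, inv_mul_cancel, map_one, End.one_apply]
  let e : V ≃ₗ[ℂ] V := LinearEquiv.ofLinearMap (ρ g) (ρ g⁻¹) (LinearMap.ext h1) (LinearMap.ext h2)
  have he : ∀ v, e v = ρ g v := fun _ => rfl
  rw [← LinearEquiv.finrank_map_eq e (B ⊓ (ρ u).eigenspace c : Submodule ℂ V)]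
  have h3 : (B ⊓ (ρ (g * u * g⁻¹)).eigenspace c : Submodule ℂ V) =
      (B ⊓ (ρ u).eigenspace c : Submodule ℂ V).map (e : V →ₗ[ℂ] V) := by
    ext v
    simp only [Submodule.mem_inf, End.mem_eigenspace_iff, Submodule.mem_map, LinearEquiv.coe_coe,
      he, map_mul, End.mul_apply]
    constructor
    · rintro ⟨h4, h5⟩
      refine ⟨ρ g⁻¹ v, ⟨(hg _).1 (by rwa [h1]), ?_⟩, h1 v⟩
      rw [← h2 (ρ u (ρ g⁻¹ v)), h5, map_smul]
    · rintro ⟨w, ⟨h4, h5⟩, rfl⟩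
      exact ⟨(hg w).2 h4, by rw [h2, h5, map_smul]⟩
  rw [h3]

omit [Finite G] in
theorem wt_conj (ρ : G →* End ℂ V) (B : Submodule ℂ V) {g : G}
    (hg : ∀ v, ρ g v ∈ B ↔ v ∈ B) (u : G) : wt (ref ρ B (g * u * g⁻¹)) = wt (ref ρ B u) := by
  simp only [wt, ref, Multiset.map_map, Function.comp_def, finrank_conj ρ B hg u]

/-- one subspace, one prime, one codimension. `P` = a Sylow subgroup of `stb ρ (B ::ₘ M)` mapped
to `G`, `R` from `reps`, and `T` = the union over the `u' ∈ R` which keep `B` and satisfy the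
weight inequality of the sets given by `ih` for `ref ρ B u' + M`. Given `x` and `u = x ^ n`,
conjugate both by `g ∈ stb` so that `u ∈ P`; dimension and weight are not changed -/
theorem cover_one {p : ℕ} (hp : p.Prime) (ρ : G →* End ℂ V) {Q D κ a0 : ℕ}
    (h2 : ∀ (x : G) (k : ℕ), x ^ p ^ k = 1 → orderOf x ≤ Q) (B : Submodule ℂ V)
    (M : Multiset (Submodule ℂ V)) (hM : (B ::ₘ M).sup = ⊤) (hD : dm (B ::ₘ M) ≤ D)
    (ih : ∀ M' : Multiset (Submodule ℂ V), wt M' < wt (B ::ₘ M) → M'.sup = ⊤ → dm M' ≤ D →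
      ∃ T : Finset G, T.card ≤ 2 * a0 * wt M' ^ κ ∧ Cov T (stb ρ M'))
    (j : ℕ) (hj : 0 < j) : ∃ T : Finset G,
      T.card * 2 ^ (κ * j) ≤ Q * (Q * D ^ 2 + 1) ^ (2 * j) * (2 * a0 * wt (B ::ₘ M) ^ κ) ∧
      ∀ x ∈ stb ρ (B ::ₘ M), ∀ (u : G) (k : ℕ) (c : ℂ), u ∈ stb ρ (B ::ₘ M) → x * u = u * x →
        u ^ p ^ k = 1 → j < finrank ℂ B →
        finrank ℂ (B ⊓ (ρ u).eigenspace c : Submodule ℂ V) + j = finrank ℂ B →
        wt (ref ρ B u) * 2 ^ j ≤ finrank ℂ B ^ finrank ℂ B →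
        ∃ g : G, g * x * g⁻¹ ∈ T := by
  classical
  by_cases hjB : j < finrank ℂ B
  swap
  · exact ⟨∅, by simp, fun _ _ _ _ _ _ _ _ h => absurd h hjB⟩
  have := Fact.mk hp
  have wB : wt (B ::ₘ M) = finrank ℂ B ^ finrank ℂ B * wt M := by simp [wt]
  have dB : dm (B ::ₘ M) = finrank ℂ B + dm M := by simp [dm]
  have hB : ∀ g ∈ stb ρ (B ::ₘ M), ∀ v, ρ g v ∈ B ↔ v ∈ B := fun g hg =>
    hg B (Multiset.mem_cons_self _ _)
  have key : ∀ u' : G, ∃ T : Finset G, T.card * 2 ^ (κ * j) ≤ 2 * a0 * wt (B ::ₘ M) ^ κ ∧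
      ((∀ v ∈ B, ρ u' v ∈ B) → wt (ref ρ B u') * 2 ^ j ≤ finrank ℂ B ^ finrank ℂ B →
        Cov T (stb ρ (ref ρ B u' + M))) := fun u' => by
    by_cases h : (∀ v ∈ B, ρ u' v ∈ B) ∧ wt (ref ρ B u') * 2 ^ j ≤ finrank ℂ B ^ finrank ℂ B
    swap
    · exact ⟨∅, by simp, fun h1 h3 => absurd ⟨h1, h3⟩ h⟩
    have w1 : wt (ref ρ B u' + M) = wt (ref ρ B u') * wt M := by simp [wt]
    have d1 : dm (ref ρ B u' + M) = dm (ref ρ B u') + dm M := by simp [dm]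
    have w2 : wt (ref ρ B u' + M) * 2 ^ j ≤ wt (B ::ₘ M) := by
      rw [w1, wB, mul_right_comm]
      exact Nat.mul_le_mul_right _ h.2
    obtain ⟨T, t1, t2⟩ := ih (ref ρ B u' + M)
      (lt_of_lt_of_le (lt_mul_of_one_lt_right (wt_pos _) (Nat.one_lt_two_pow hj.ne')) w2)
      (by rw [Multiset.sup_add, sup_ref ρ B u' h.1, ← Multiset.sup_cons, hM])
      (by have := dm_ref ρ B u'; omega)
    refine ⟨T, ?_, fun _ _ => t2⟩
    calc _ ≤ 2 * a0 * wt (ref ρ B u' + M) ^ κ * 2 ^ (κ * j) := Nat.mul_le_mul_right _ t1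
      _ = 2 * a0 * (wt (ref ρ B u' + M) * 2 ^ j) ^ κ := by rw [mul_pow, ← pow_mul']; ring
      _ ≤ _ := by gcongr
  choose f f1 f2 using key
  obtain ⟨P⟩ : Nonempty (Sylow p (stb ρ (B ::ₘ M))) := inferInstance
  have hP := P.isPGroup'.map (stb ρ (B ::ₘ M)).subtype
  obtain ⟨R, r1, r2⟩ := reps hp ρ _ hP (Q := Q) (D := D) (fun g hg => by
      obtain ⟨k, hk⟩ := hP ⟨g, hg⟩
      exact h2 g k (by simpa using congrArg Subtype.val hk)) B (by omega)
    (fun g hg v hv => (hB g (Subgroup.map_subtype_le _ hg) v).2 hv) j hjB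
  refine ⟨R.biUnion f, ?_, fun x hx u k c hu hxu hk _ h3 h4 => ?_⟩
  · calc _ ≤ (∑ u' ∈ R, (f u').card) * 2 ^ (κ * j) :=
          Nat.mul_le_mul_right _ Finset.card_biUnion_le
      _ ≤ R.card * (2 * a0 * wt (B ::ₘ M) ^ κ) := by
          rw [Finset.sum_mul, ← smul_eq_mul]
          exact Finset.sum_le_card_nsmul _ _ _ fun u' _ => f1 u'
      _ ≤ _ := Nat.mul_le_mul_right _ r1
  have hz : IsPGroup p (Subgroup.zpowers (⟨u, hu⟩ : stb ρ (B ::ₘ M))) := by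
    rintro ⟨_, n, rfl⟩
    refine ⟨k, Subtype.ext (Subtype.ext ?_)⟩
    have : (u ^ n) ^ p ^ k = 1 := by rw [← zpow_natCast, ← zpow_mul, mul_comm, zpow_mul,
      zpow_natCast, hk, one_zpow]
    simpa using this
  obtain ⟨P', hP'⟩ := hz.exists_le_sylow
  obtain ⟨g, rfl⟩ := MulAction.exists_smul_eq (stb ρ (B ::ₘ M)) P' P
  have m1 : (g : G) * u * (g : G)⁻¹ ∈ (g • P' : Sylow p _).toSubgroup.map
      (stb ρ (B ::ₘ M)).subtype :=
    ⟨g * ⟨u, hu⟩ * g⁻¹, Subgroup.smul_mem_pointwise_smul _ (MulAut.conj g) _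
      (hP' (Subgroup.mem_zpowers _)), rfl⟩
  obtain ⟨u', hu', e⟩ := r2 _ m1 c (by rw [finrank_conj ρ B (hB g g.2), h3])
  have e1 := ref_congr ρ B e
  obtain ⟨g', hg'⟩ := f2 u'
    (fun v hv => e v hv ▸ (hB _ (Subgroup.map_subtype_le _ m1) v).2 hv)
    (by rw [← e1, wt_conj ρ B (hB g g.2)]; exact h4) (g * x * (g : G)⁻¹)
    (e1 ▸ mem_stb_ref ρ B M (mul_mem (mul_mem g.2 hx) (inv_mem g.2)) (by
      calc _ = g * (x * u) * (g : G)⁻¹ := by group
        _ = _ := by rw [hxu]; group))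
  exact ⟨g' * g, Finset.mem_biUnion.2 ⟨u', hu', by convert hg' using 1; group⟩⟩

open Classical in
theorem card_ne_bot (M : Multiset (Submodule ℂ V)) : (M.filter (· ≠ ⊥)).card ≤ dm M := by
  induction M using Multiset.induction_on with
  | empty => simp
  | cons B M ih =>
    rw [dm, Multiset.map_cons, Multiset.sum_cons, Multiset.filter_cons, Multiset.card_add]
    refine Nat.add_le_add ?_ ih
    split_ifs with h
    · exact Nat.one_le_iff_ne_zero.2 fun h0 => h (Submodule.finrank_eq_zero.1 h0)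
    · simp

/-- strong induction on the weight; the union of `scal_card` and of `cover_one` over the at most
`D` nonzero subspaces `B ∈ M`, the primes `p ≤ Q` and `1 ≤ j ≤ D`; `exists_pow`, `wt_ref`, `geo` -/
theorem cover (ρ : G →* End ℂ V) (hinj : Function.Injective ρ) {Q D κ a0 : ℕ} (hD0 : 0 < D)
    (h1 : ∀ A : Subgroup G, (∀ x ∈ A, ∀ y ∈ A, x * y = y * x) → Nat.card A ≤ a0)
    (h2 : ∀ (x : G) (p k : ℕ), p.Prime → x ^ p ^ k = 1 → orderOf x ≤ Q)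
    (hκ : 4 * D * Q ^ 2 * (Q * D ^ 2 + 1) ^ 2 ≤ 2 ^ κ) (M : Multiset (Submodule ℂ V))
    (hM : M.sup = ⊤) (hD : dm M ≤ D) :
    ∃ T : Finset G, T.card ≤ 2 * a0 * wt M ^ κ ∧ Cov T (stb ρ M) := by
  classical
  have hQ : 0 < Q := (orderOf_pos (1 : G)).trans_le (h2 1 2 0 Nat.prime_two (by simp))
  induction hw : wt M using Nat.strong_induction_on generalizing M with
  | _ w ih =>
  subst hw
  obtain ⟨T0, hT0, hT0'⟩ := scal_card ρ hinj a0 h1 M hM
  have key : ∀ B ∈ M, ∀ p : ℕ, p.Prime → ∀ j : ℕ, 0 < j → ∃ T : Finset G,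
      T.card * 2 ^ (κ * j) ≤ Q * (Q * D ^ 2 + 1) ^ (2 * j) * (2 * a0 * wt M ^ κ) ∧
      ∀ x ∈ stb ρ M, ∀ (u : G) (k : ℕ) (c : ℂ), u ∈ stb ρ M → x * u = u * x →
        u ^ p ^ k = 1 → j < finrank ℂ B →
        finrank ℂ (B ⊓ (ρ u).eigenspace c : Submodule ℂ V) + j = finrank ℂ B →
        wt (ref ρ B u) * 2 ^ j ≤ finrank ℂ B ^ finrank ℂ B →
        ∃ g : G, g * x * g⁻¹ ∈ T := by
    intro B hB p hp j hj
    obtain ⟨M', rfl⟩ := Multiset.exists_cons_of_mem hB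
    exact cover_one hp ρ (fun x k => h2 x p k hp) B M' hM hD
      (fun N hlt a b => ih _ hlt N a b rfl) j hj
  choose! T hT hT' using key
  set I : Finset (Submodule ℂ V) := (M.filter (· ≠ ⊥)).toFinset with hI
  set Ps : Finset ℕ := (Finset.Ioc 0 Q).filter Nat.Prime with hPs
  have hIm : ∀ B, B ∈ I ↔ B ∈ M ∧ B ≠ ⊥ := fun B => by simp [hI]
  have hIc : I.card ≤ D := (Multiset.toFinset_card_le _).trans ((card_ne_bot M).trans hD)
  have hPc : Ps.card ≤ Q := (Finset.card_filter_le _ _).trans (by simp)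
  refine ⟨T0 ∪ I.biUnion fun B => Ps.biUnion fun p => (Finset.Ioc 0 D).biUnion fun j => T B p j,
    ?_, fun x hx => ?_⟩
  · set S := ∑ B ∈ I, ∑ p ∈ Ps, ∑ j ∈ Finset.Ioc 0 D, (T B p j).card with hS
    have e1 : (I.biUnion fun B => Ps.biUnion fun p =>
        (Finset.Ioc 0 D).biUnion fun j => T B p j).card ≤ S :=
      Finset.card_biUnion_le.trans (Finset.sum_le_sum fun B _ =>
        Finset.card_biUnion_le.trans (Finset.sum_le_sum fun p _ => Finset.card_biUnion_le))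
    have e2 : 2 * D * Q * S ≤ D * (Q * (2 * a0 * wt M ^ κ)) := by
      rw [hS, Finset.mul_sum]
      refine (Finset.sum_le_card_nsmul _ _ (Q * (2 * a0 * wt M ^ κ)) fun B hB => ?_).trans
        (Nat.mul_le_mul_right _ hIc)
      rw [Finset.mul_sum]
      refine (Finset.sum_le_card_nsmul _ _ (2 * a0 * wt M ^ κ) fun p hp => ?_).trans
        (Nat.mul_le_mul_right _ hPc)
      exact geo hD0 hQ hκ (fun j => (T B p j).card)
        (fun j hj => hT B ((hIm B).1 hB).1 p (Finset.mem_filter.1 hp).2 j hj) D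
    have e3 : S ≤ a0 * wt M ^ κ := by
      refine Nat.le_of_mul_le_mul_left (c := 2 * D * Q) (e2.trans_eq (by ring)) (by positivity)
    have e4 : a0 ≤ a0 * wt M ^ κ := Nat.le_mul_of_pos_right _ (pow_pos (wt_pos M) _)
    have e5 := Finset.card_union_le T0 (I.biUnion fun B => Ps.biUnion fun p =>
      (Finset.Ioc 0 D).biUnion fun j => T B p j)
    rw [mul_assoc 2]
    omega
  · by_cases hs : ∀ B ∈ M, ∃ c : ℂ, ∀ v ∈ B, ρ x v = c • v
    · exact ⟨1, Finset.mem_union_left _ (by simpa using hT0' x hs)⟩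
    obtain ⟨B, hB⟩ := not_forall.1 hs
    obtain ⟨hB, hn⟩ := Classical.not_imp.1 hB
    obtain ⟨n, p, k, hp, hk, ho, hu⟩ := exists_pow ρ B hn
    have hm : x ^ n ∈ stb ρ M := (stb ρ M).pow_mem hx n
    obtain ⟨c, j, j0, j1, j2, j3⟩ := wt_ref ρ B (x ^ n) (fun v hv => (hm B hB v).2 hv) hu
    have hpk : (x ^ n) ^ p ^ k = 1 := by rw [← ho, pow_orderOf_eq_one]
    obtain ⟨g, hg⟩ := hT' B hB p hp j j0 x hx (x ^ n) k c hm (Commute.self_pow x n).eq hpk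
      j1 j2 j3
    refine ⟨g, Finset.mem_union_right _ (Finset.mem_biUnion.2 ⟨B, (hIm B).2 ⟨hB, fun h => ?_⟩,
      Finset.mem_biUnion.2 ⟨p, Finset.mem_filter.2 ⟨Finset.mem_Ioc.2 ⟨hp.pos, ?_⟩, hp⟩,
        Finset.mem_biUnion.2 ⟨j, Finset.mem_Ioc.2 ⟨j0, ?_⟩, hg⟩⟩⟩)⟩
    · rw [h, finrank_bot] at j1
      omega
    · exact (Nat.le_self_pow hk.ne' p).trans (ho ▸ h2 _ p k hp hpk)
    · exact j1.le.trans ((Multiset.single_le_sum (fun _ _ => Nat.zero_le _) _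
        (Multiset.mem_map_of_mem _ hB)).trans hD)

theorem class_count (ρ : G →* End ℂ V) (hinj : Function.Injective ρ) {Q κ a0 : ℕ}
    (hD0 : 0 < finrank ℂ V)
    (h1 : ∀ A : Subgroup G, (∀ x ∈ A, ∀ y ∈ A, x * y = y * x) → Nat.card A ≤ a0)
    (h2 : ∀ (x : G) (p k : ℕ), p.Prime → x ^ p ^ k = 1 → orderOf x ≤ Q)
    (hκ : 4 * finrank ℂ V * Q ^ 2 * (Q * finrank ℂ V ^ 2 + 1) ^ 2 ≤ 2 ^ κ) :
    Nat.card (ConjClasses G) ≤ 2 * a0 * (finrank ℂ V ^ finrank ℂ V) ^ κ := by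
  obtain ⟨T, h3, h4⟩ := cover ρ hinj hD0 h1 h2 hκ {⊤} (by simp) (by simp [dm])
  have h5 : wt ({⊤} : Multiset (Submodule ℂ V)) = finrank ℂ V ^ finrank ℂ V := by simp [wt]
  rw [h5] at h3
  refine le_trans ?_ h3
  rw [← Fintype.card_coe T, ← Nat.card_eq_fintype_card]
  refine Nat.card_le_card_of_surjective (fun x : T => ConjClasses.mk (x : G)) fun C => ?_
  obtain ⟨x, rfl⟩ := ConjClasses.mk_surjective C
  obtain ⟨g, hg⟩ := h4 x (fun B hB v => by simp [Multiset.mem_singleton.1 hB])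
  exact ⟨⟨_, hg⟩, (ConjClasses.mk_eq_mk_iff_isConj.2 (isConj_iff.2 ⟨g, rfl⟩)).symm⟩

end Pool.Agent.Lib.MP_d87a8f_pr.K
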