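import Mathlib
import Pool.Agent.Lib.MP_d87a8f_pr.S.Defs
import Pool.Agent.Lib.MP_d87a8f_pr.K.Ct
import Pool.Agent.Lib.MP_d87a8f_pr.M.E12

/-!
Prime normal subgroups and the perfect normal subgroup attached to each of them.
-/

namespace Pool.Agent.Lib.MP_d87a8f_pr.K

open Pool.Agent.Lib.MP_d87a8f_pr.S

variable {G : Type} [Group G] [Finite G]

/-- a proper normal subgroup which contains a commutator of normal subgroups only if it contains
one of them -/
def Pr (C : Subgroup G) : Prop :=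
  C.Normal ∧ C ≠ ⊤ ∧ ∀ R T : Subgroup G, R.Normal → T.Normal → ⁅R, T⁆ ≤ C → R ≤ C ∨ T ≤ C

/-- induction on `t` for all `N`: take `N'` minimal among the normal subgroups which properly
contain `N`; a prime `C ≥ N` which does not contain `N'` is equal to `zz N N'` -/
theorem card_pr (t : ℕ) (N : Subgroup G) (hN : N.Normal) (ht : N.index ≤ 2 ^ t)
    (s : Finset (Subgroup G)) (hs : ∀ C ∈ s, Pr C ∧ N ≤ C) : s.card ≤ t := by
  obtain ⟨F, h1, h2⟩ := M.few_pm t N hN ht
  exact (Finset.card_le_card fun C hC => h2 C (hs C hC).1 (hs C hC).2).trans h1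

/-- take a normal `L` of least order which is not contained in `C`; for every other `R` the
commutator `⁅L, R⁆ ≤ L ⊓ R` is again not contained in `C` -/
theorem exists_least {C : Subgroup G} (h : Pr C) : ∃ L : Subgroup G, L.Normal ∧ ¬ L ≤ C ∧
    ⁅L, L⁆ = L ∧ ∀ R : Subgroup G, R.Normal → ¬ R ≤ C → L ≤ R := by
  obtain ⟨L, l1, l2, l3⟩ := M.Pm.least h
  exact ⟨L, l1, l2, le_antisymm (Subgroup.commutator_le_left L L) (l3 L l1 l2),
    fun R hR hc => (l3 R hR hc).trans (Subgroup.commutator_le_right L R)⟩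

/-- `C = zz V U`; `U ⊓ C = V`; if `R, T` are not in `C` then `⁅U, R⁆ ⊔ V = U = ⁅U, T⁆ ⊔ V` -/
theorem exists_pr {K : Subgroup G} [K.Normal] (h : ¬ NC G K) : ∃ C U V : Subgroup G, Pr C ∧
    U.Normal ∧ V.Normal ∧ K ≤ C ∧ ¬ U ≤ C ∧ ⁅U, C⁆ ≤ V ∧ ⁅U, V⁆ ≤ K := by
  obtain ⟨C, c1, c2, c3⟩ := M.exists_pm h
  obtain ⟨L, l1, l2, l3, l4⟩ := exists_least c1
  exact ⟨C, L, K, c1, l1, inferInstance, c2, l2, c3 L l3 l4, Subgroup.commutator_le_right L K⟩

/-- the three subgroups lemma modulo `K` -/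
theorem comm_le_of_perf {K L C : Subgroup G} [K.Normal] [L.Normal] [C.Normal] (hL : ⁅L, L⁆ = L)
    (h : ⁅⁅L, C⁆, L⁆ ≤ K) : ⁅C, L⁆ ≤ K := by
  rw [Subgroup.commutator_comm, ← hL]
  exact M.three_sub h (by rwa [Subgroup.commutator_comm C L])

/-- `exists_pr` for each `i`, a popular prime `C` by `card_pr` with `N = ⊥`, `L` from
`exists_least`; a normal `W < L` lies in `C` -/
theorem common_perfect {ι : Type} (s : Finset ι) (hne : s.Nonempty) (K : ι → Subgroup G)
    (hK : ∀ i ∈ s, (K i).Normal ∧ ¬ NC G (K i)) {Lam : ℕ} (hG : Nat.card G ≤ 2 ^ Lam) :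
    ∃ (L : Subgroup G) (t : Finset ι), t ⊆ s ∧ t.Nonempty ∧ s.card ≤ Lam * t.card ∧ L.Normal ∧
      ⁅L, L⁆ = L ∧ ∀ i ∈ t, ¬ L ≤ K i ∧
        ∀ W : Subgroup G, W.Normal → W ≤ L → W = L ∨ ⁅W, L⁆ ≤ K i := by
  classical
  obtain ⟨L, C, l1, -, l3, l4, l5, l6⟩ := M.exists_L hG s K (fun i hi => (hK i hi).1)
    (fun i hi => (hK i hi).2) hne
  refine ⟨L, _, Finset.filter_subset _ _, Finset.card_pos.1 (Nat.pos_of_ne_zero fun h => ?_), l6,
    l1, l3, fun i hi => ?_⟩
  · rw [h, mul_zero] at l6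
    exact absurd (Finset.card_pos.2 hne) (by omega)
  · obtain ⟨-, h1, h2⟩ := Finset.mem_filter.1 hi
    refine ⟨fun h => l4 (h.trans h1), fun W hW hWL => (l5 W hW hWL).imp_right fun h => ?_⟩
    rw [Subgroup.commutator_comm]
    exact (Subgroup.commutator_mono le_rfl h).trans h2

/-- normal subgroups of prime power order are central -/
def HP (X : Type) [Group X] : Prop :=
  ∀ (p : ℕ) (W : Subgroup X), p.Prime → W.Normal → IsPGroup p W → W ≤ Subgroup.center X

/-- let `O ≤ L` be of largest order among the `p`-subgroups of `L` which are normalised by `L`;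
a conjugate of `O` has the same property and so has the join (`IsPGroup.to_sup_of_normal_right`
in the type `L`), so `O` is normal in `G` and contains the given subgroup; if `O = L` then `L` is
solvable and perfect, hence trivial -/
theorem hp_of_min (L : Subgroup G) [L.Normal] (hL : ⁅L, L⁆ = L)
    (h : ∀ W : Subgroup G, W.Normal → W ≤ L → W = L ∨ ⁅W, L⁆ = ⊥) : HP L := by
  intro p W hp hW hpW
  have : Fact p.Prime := ⟨hp⟩
  let O : Subgroup L := ⨅ P : Sylow p L, (P : Subgroup L)
  have hWO : W ≤ O := le_iInf fun P => hpW.le_sylow_of_normal P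
  have hO : IsPGroup p O := by
    obtain ⟨P⟩ : Nonempty (Sylow p L) := inferInstance
    exact P.2.to_le (iInf_le (fun P : Sylow p L => (P : Subgroup L)) P)
  have : O.Characteristic := Subgroup.characteristic_iff_le_comap.2 fun φ x hx => by
    refine Subgroup.mem_comap.2 (Subgroup.mem_iInf.2 fun P => ?_)
    exact Subgroup.mem_iInf.1 hx (P.comapOfInjective φ.toMonoidHom φ.injective
      (by rw [MonoidHom.range_eq_top.2 φ.surjective]; exact le_top))
  rcases h (O.map L.subtype) inferInstance (Subgroup.map_subtype_le O) with h1 | h1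
  · have h2 : O = ⊤ := Subgroup.map_injective L.subtype_injective
      (by rw [h1, ← MonoidHom.range_eq_map, Subgroup.range_subtype])
    have h3 : IsPGroup p L := (h2 ▸ hO : IsPGroup p (⊤ : Subgroup L)).of_equiv Subgroup.topEquiv
    have := h3.isNilpotent
    have h4 : ⁅(⊤ : Subgroup L), (⊤ : Subgroup L)⁆ = ⊤ :=
      Subgroup.map_injective L.subtype_injective (by
        rw [Subgroup.map_commutator, ← MonoidHom.range_eq_map, Subgroup.range_subtype, hL])
    have h5 : (⊤ : Subgroup L) = ⊥ := by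
      by_contra h6
      exact (Group.IsSolvable.commutator_lt_of_ne_bot h6).ne h4
    exact le_top.trans (h5.le.trans bot_le)
  · intro x hx
    refine Subgroup.mem_center_iff.2 fun g => Subtype.ext ?_
    have h2 := Subgroup.commutator_mem_commutator
      (Subgroup.mem_map_of_mem L.subtype (hWO hx)) g.2
    rw [h1, Subgroup.mem_bot, commutatorElement_eq_one_iff_mul_comm] at h2
    exact h2.symm

/-- the elements of `p`-power order of `W` form a normal subgroup; `pow_part` type argument: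
every element is a product of such elements -/
theorem HP.comm (h : HP G) (W : Subgroup G) (hW : W.Normal)
    (hc : ∀ x ∈ W, ∀ y ∈ W, x * y = y * x) : W ≤ Subgroup.center G := by
  intro x hx
  by_contra hn
  obtain ⟨n, p, k, hp, -, h1, h2⟩ := pow_part _ hn
  let P : Subgroup G :=
    { carrier := {y | y ∈ W ∧ ∃ j : ℕ, y ^ p ^ j = 1}
      one_mem' := ⟨W.one_mem, 0, one_pow _⟩
      mul_mem' := by
        rintro a b ⟨ha, i, hi⟩ ⟨hb, j, hj⟩
        refine ⟨W.mul_mem ha hb, i + j, ?_⟩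
        rw [Commute.mul_pow (hc a ha b hb), pow_add, pow_mul, hi, one_pow, mul_comm (p ^ i),
          pow_mul, hj, one_pow, mul_one]
      inv_mem' := by
        rintro a ⟨ha, i, hi⟩
        exact ⟨W.inv_mem ha, i, by rw [inv_pow, hi, inv_one]⟩ }
  have hP : P.Normal := ⟨by
    rintro a ⟨ha, i, hi⟩ g
    exact ⟨hW.conj_mem a ha g, i, by rw [conj_pow, hi, mul_one, mul_inv_cancel]⟩⟩
  refine h2 (h p P hp hP (fun y => ?_) ⟨W.pow_mem hx n, k, ?_⟩)
  · obtain ⟨j, hj⟩ := y.2.2
    exact ⟨j, Subtype.ext hj⟩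
  · rw [← h1, pow_orderOf_eq_one]

end Pool.Agent.Lib.MP_d87a8f_pr.K
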