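import Mathlib
import Pool.Agent.Lib.MP_d87a8f_pr.J.Jordan
import Pool.Agent.Lib.MP_d87a8f_pr.K.Mon
import Pool.Agent.Lib.MP_d87a8f_pr.K.Prime
import Pool.Agent.Lib.MP_d87a8f_pr.K56.Ord

/-!
The centre and the commutative subgroups of a perfect linear group.
-/

namespace Pool.Agent.Lib.MP_d87a8f_pr.K

open Module
open scoped Matrix

variable {G : Type} [Group G] [Fintype G] {n : ℕ}

open scoped Matrix.Norms.L2Operator MatrixOrder ComplexOrder in
/-- as in the proof of `J.jordan` -/
theorem unitarize (ρ : G →* Matrix (Fin n) (Fin n) ℂ) :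
    ∃ π : G →* Matrix (Fin n) (Fin n) ℂ, π.ker = ρ.ker ∧ ∀ g, π g * (π g)ᴴ = 1 := by
  classical
  set H : Matrix (Fin n) (Fin n) ℂ := ∑ g : G, (ρ g)ᴴ * ρ g with hH
  have h1 : H.PosDef := by
    rw [hH, ← Finset.add_sum_erase _ _ (Finset.mem_univ (1 : G))]
    refine Matrix.PosDef.add_posSemidef (by simpa using Matrix.PosDef.one) ?_
    exact Matrix.posSemidef_sum _ fun g _ => Matrix.posSemidef_conjTranspose_mul_self _
  have h2 : ∀ x, star (ρ x) * H * ρ x = H := by
    intro x
    rw [hH, Finset.mul_sum, Finset.sum_mul]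
    refine Fintype.sum_equiv (Equiv.mulRight x) _ _ fun g => ?_
    rw [Equiv.coe_mulRight, map_mul, Matrix.conjTranspose_mul, Matrix.star_eq_conjTranspose]
    simp only [mul_assoc]
  obtain ⟨B, hB⟩ := CStarAlgebra.nonneg_iff_eq_star_mul_self.mp h1.posSemidef.nonneg
  have hBu : IsUnit B := by
    have := h1.isUnit
    rw [hB, Matrix.isUnit_iff_isUnit_det, Matrix.det_mul] at this
    exact (Matrix.isUnit_iff_isUnit_det B).2 (isUnit_of_mul_isUnit_right this)
  obtain ⟨u, rfl⟩ := hBu
  let π : G →* Matrix (Fin n) (Fin n) ℂ :=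
    { toFun := fun g => u.val * ρ g * (u⁻¹).val
      map_one' := by simp
      map_mul' := fun x y => by simp [mul_assoc] }
  refine ⟨π, Subgroup.ext fun x => ⟨fun hx => ?_, fun hx => ?_⟩, fun g => mul_eq_one_comm.1 ?_⟩
  · have h3 : u.val * ρ x * (u⁻¹).val = 1 := hx
    have h4 := congrArg (fun M => (u⁻¹).val * M * u.val) h3
    simpa [mul_assoc] using h4
  · change u.val * ρ x * (u⁻¹).val = 1
    rw [show ρ x = 1 from hx, mul_one, Units.mul_inv]
  · have e : star (π g) * π g =
        star (u⁻¹).val * (star (ρ g) * (star u.val * u.val) * ρ g) * (u⁻¹).val := by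
      change star (u.val * ρ g * (u⁻¹).val) * (u.val * ρ g * (u⁻¹).val) = _
      simp only [star_mul, mul_assoc]
    rw [← Matrix.star_eq_conjTranspose, e, ← hB, h2, hB, ← mul_assoc, ← star_mul, mul_assoc]
    simp

section
variable {V : Type} [AddCommGroup V] [Module ℂ V] [FiniteDimensional ℂ V]

/-- `W` = the vectors `w` with `ρ z w = c z • w` for all central `z` is invariant; the determinant
of the restriction is a homomorphism to a commutative monoid, trivial on `commutator G = ⊤` -/
theorem weight_pow (ρ : G →* End ℂ V) (hp : commutator G = ⊤) {v : V} (hv : v ≠ 0) (c : G → ℂ)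
    (h : ∀ z ∈ Subgroup.center G, ρ z v = c z • v) :
    ∃ m : ℕ, 0 < m ∧ m ≤ finrank ℂ V ∧ ∀ z ∈ Subgroup.center G, c z ^ m = 1 := by
  let W : Submodule ℂ V :=
    { carrier := {w | ∀ z ∈ Subgroup.center G, ρ z w = c z • w}
      add_mem' := fun {a b} ha hb z hz => by rw [map_add, ha z hz, hb z hz, smul_add]
      zero_mem' := fun z _ => by rw [map_zero, smul_zero]
      smul_mem' := fun t a ha z hz => by rw [map_smul, ha z hz, smul_comm] }
  have hW : ∀ g : G, ∀ w ∈ W, ρ g w ∈ W := by
    intro g w hw z hz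
    have e : z * g = g * z := (Subgroup.mem_center_iff.1 hz g).symm
    rw [← Module.End.mul_apply, ← map_mul, e, map_mul, Module.End.mul_apply, hw z hz, map_smul]
  let σ : G →* End ℂ W :=
    { toFun := fun g => (ρ g).restrict (hW g)
      map_one' := by
        ext w
        simp [LinearMap.restrict_apply]
      map_mul' := fun a b => by
        ext w
        simp [LinearMap.restrict_apply] }
  have hd : ∀ g : G, LinearMap.det (σ g) = 1 := by
    intro g
    have h1 := Abelianization.commutator_subset_ker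
      (MonoidHom.toHomUnits ((LinearMap.det : End ℂ W →* ℂ).comp σ))
    have h2 : g ∈ commutator G := hp ▸ Subgroup.mem_top g
    have h3 := congrArg Units.val (MonoidHom.mem_ker.1 (h1 h2))
    simpa using h3
  refine ⟨finrank ℂ W, ?_, Submodule.finrank_le W, fun z hz => ?_⟩
  · refine Module.finrank_pos_iff_exists_ne_zero.2 ⟨⟨v, h⟩, fun e => hv ?_⟩
    exact congrArg Subtype.val e
  · have e : σ z = c z • (LinearMap.id : W →ₗ[ℂ] W) := by
      ext w
      exact w.2 z hz
    have h1 := hd z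
    rw [e, LinearMap.det_smul, LinearMap.det_id, mul_one] at h1
    exact h1

omit [Fintype G] [FiniteDimensional ℂ V] in
theorem pow_apply_eig (ρ : G →* End ℂ V) {z : G} {v : V} {a : ℂ} (h : ρ z v = a • v) (t : ℕ) :
    ρ (z ^ t) v = a ^ t • v := by
  induction t with
  | zero => simp
  | succ t ih => rw [pow_succ', map_mul, Module.End.mul_apply, ih, map_smul, h, smul_smul, pow_succ]

/-- a frame of common eigenvectors of the centre with the exponents of `weight_pow` -/
theorem center_frame (ρ : G →* End ℂ V) (hinj : Function.Injective ρ) (hp : commutator G = ⊤) :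
    ∃ (S : Finset V) (c : V → G → ℂ) (m : V → ℕ), S.card = finrank ℂ V ∧
      (∀ v ∈ S, v ≠ 0 ∧ 0 < m v ∧ m v ≤ finrank ℂ V ∧
        ∀ z ∈ Subgroup.center G, ρ z v = c v z • v ∧ c v z ^ m v = 1) ∧
      ∀ x y : G, (∀ v ∈ S, ρ x v = ρ y v) → x = y := by
  classical
  obtain ⟨S, h1, h2, h3⟩ := diag ρ (Subgroup.center G)
    (fun x hx y _ => by rw [← map_mul, ← map_mul, Subgroup.mem_center_iff.1 hx y]) ⊤
    (fun _ _ _ _ => Submodule.mem_top)
  have h4 : ∀ v : V, ∀ g : G, ∃ a : ℂ, v ∈ S → g ∈ Subgroup.center G → ρ g v = a • v := by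
    intro v g
    by_cases hv : v ∈ S
    · by_cases hg : g ∈ Subgroup.center G
      · obtain ⟨a, ha⟩ := h3 g hg v hv
        exact ⟨a, fun _ _ => ha⟩
      · exact ⟨0, fun _ h => (hg h).elim⟩
    · exact ⟨0, fun h => (hv h).elim⟩
  choose c hc using h4
  have h0 : ∀ v ∈ S, v ≠ 0 := fun v hv => h1.ne_zero (by simpa using hv)
  have h5 : ∀ v : V, ∃ m : ℕ, v ∈ S →
      0 < m ∧ m ≤ finrank ℂ V ∧ ∀ z ∈ Subgroup.center G, c v z ^ m = 1 := by
    intro v
    by_cases hv : v ∈ S
    · obtain ⟨m, hm⟩ := weight_pow ρ hp (h0 v hv) (c v) (fun z hz => hc v z hv hz)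
      exact ⟨m, fun _ => hm⟩
    · exact ⟨0, fun h => (hv h).elim⟩
  choose m hm using h5
  refine ⟨S, c, m, ?_, fun v hv => ⟨h0 v hv, (hm v hv).1, (hm v hv).2.1, fun z hz =>
    ⟨hc v z hv hz, (hm v hv).2.2 z hz⟩⟩, fun x y hxy => hinj ?_⟩
  · rw [card_frame h1 h2, finrank_top]
  · exact LinearMap.ext_on h2 (fun v hv => hxy v (by simpa using hv))

/-- `diag` for the centre, `weight_pow` for each vector of the basis: a central element is fixed
by its eigenvalues, and each has at most `finrank` possible values -/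
theorem card_center (ρ : G →* End ℂ V) (hinj : Function.Injective ρ) (hp : commutator G = ⊤) :
    Nat.card (Subgroup.center G) ≤ finrank ℂ V ^ finrank ℂ V := by
  classical
  obtain ⟨S, c, m, h1, h2, h3⟩ := center_frame ρ hinj hp
  let T : Finset (S → ℂ) := Fintype.piFinset fun v => Polynomial.nthRootsFinset (m v) (1 : ℂ)
  let f : Subgroup.center G → T := fun z => ⟨fun v => c v z, Fintype.mem_piFinset.2 fun v =>
    (Polynomial.mem_nthRootsFinset (h2 v v.2).2.1 _).2 ((h2 v v.2).2.2.2 z z.2).2⟩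
  have hf : Function.Injective f := by
    intro x y e
    refine Subtype.ext (h3 x y fun v hv => ?_)
    have e1 : c v x = c v y := congrFun (congrArg Subtype.val e) ⟨v, hv⟩
    rw [((h2 v hv).2.2.2 x x.2).1, ((h2 v hv).2.2.2 y y.2).1, e1]
  refine (Nat.card_le_card_of_injective f hf).trans ?_
  rw [Nat.card_eq_fintype_card, Fintype.card_coe, Fintype.card_piFinset]
  refine (Finset.prod_le_pow_card _ _ (finrank ℂ V) fun v _ => ?_).trans ?_
  · refine le_trans ?_ (h2 v v.2).2.2.1
    rw [Polynomial.nthRootsFinset_def]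
    exact (Multiset.toFinset_card_le _).trans (Polynomial.card_nthRoots _ _)
  · rw [Finset.card_univ, Fintype.card_coe, h1]

/-- if the order is `p ^ k` with `k > 0` some eigenvalue `c` has `c ^ p ^ (k - 1) ≠ 1`, so its
order is `p ^ k`, which divides `m` -/
theorem orderOf_center (ρ : G →* End ℂ V) (hinj : Function.Injective ρ) (hp : commutator G = ⊤)
    (hV : 0 < finrank ℂ V) {p k : ℕ} (hpp : p.Prime) {z : G} (hz : z ∈ Subgroup.center G)
    (h : z ^ p ^ k = 1) : orderOf z ≤ finrank ℂ V := by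
  classical
  haveI : Fact p.Prime := ⟨hpp⟩
  obtain ⟨S, c, m, -, h2, h3⟩ := center_frame ρ hinj hp
  obtain ⟨j, -, hj⟩ := (Nat.dvd_prime_pow hpp).1 (orderOf_dvd_of_pow_eq_one h)
  rcases j with _ | i
  · rw [hj, pow_zero]
    exact hV
  · have h4 : z ^ p ^ i ≠ 1 := by
      refine pow_ne_one_of_lt_orderOf (pow_ne_zero _ hpp.ne_zero) ?_
      rw [hj]
      exact Nat.pow_lt_pow_right hpp.one_lt (Nat.lt_succ_self i)
    have h5 : ∃ v ∈ S, ¬ c v z ^ p ^ i = 1 := by
      by_contra hc
      refine h4 (h3 _ _ fun v hv => ?_)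
      have e : c v z ^ p ^ i = 1 := by
        by_contra e
        exact hc ⟨v, hv, e⟩
      rw [pow_apply_eig ρ ((h2 v hv).2.2.2 z hz).1, e, one_smul, map_one, Module.End.one_apply]
    obtain ⟨v, hv, h6⟩ := h5
    obtain ⟨h0, hm0, hm1, hm2⟩ := h2 v hv
    have h7 : c v z ^ p ^ (i + 1) = 1 := by
      have e := pow_apply_eig ρ (hm2 z hz).1 (p ^ (i + 1))
      rw [← hj, pow_orderOf_eq_one, map_one, Module.End.one_apply, hj] at e
      have e2 : (c v z ^ p ^ (i + 1) - 1) • v = 0 := by rw [sub_smul, one_smul, ← e, sub_self]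
      exact sub_eq_zero.1 ((smul_eq_zero.1 e2).resolve_right h0)
    have h8 := orderOf_eq_prime_pow h6 h7
    rw [hj, ← h8]
    exact (Nat.le_of_dvd hm0 (orderOf_dvd_of_pow_eq_one (hm2 z hz).2)).trans hm1

end

/-- `diag` for `Matrix.toLinAlgEquiv'`: the map which sends a matrix `M` to its coefficients
(coordinate at `v` of `M v`, `v` in the basis) is injective on the span -/
theorem finrank_span_le (ρ : G →* Matrix (Fin n) (Fin n) ℂ) (A : Subgroup G)
    (hA : ∀ x ∈ A, ∀ y ∈ A, x * y = y * x) :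
    finrank ℂ (Submodule.span ℂ (ρ '' (A : Set G))) ≤ n := by
  obtain ⟨v, χ, hv⟩ := K56.joint ρ A fun a ha b hb => Commute.map (hA a ha b hb) ρ
  let T : (Fin n → ℂ) →ₗ[ℂ] Matrix (Fin n) (Fin n) ℂ :=
    { toFun := fun c => LinearMap.toMatrix' (v.constr ℂ fun i => c i • v i)
      map_add' := fun a b => by
        rw [← map_add, ← map_add]
        simp only [Pi.add_apply, add_smul]
        rfl
      map_smul' := fun a b => by
        rw [← map_smul, ← map_smul]
        simp only [Pi.smul_apply, smul_assoc]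
        rfl }
  have h1 : Submodule.span ℂ (ρ '' (A : Set G)) ≤ LinearMap.range T := by
    rw [Submodule.span_le]
    rintro _ ⟨g, hg, rfl⟩
    exact ⟨fun i => χ i g, K56.ext_basis v fun i => by
      rw [hv i g hg]
      simp [T, LinearMap.toMatrix'_mulVec]⟩
  exact (Submodule.finrank_mono h1).trans (T.finrank_range_le.trans (finrank_fin_fun ℂ).le)

open scoped Matrix.Norms.L2Operator in
/-- as in `J.jordan_aux` with the operator norm: the elements at distance less than `1 / 2` from
`1` generate a normal subgroup with commuting elements (`J.frob`, `J.del_conj`), central by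
`HP.comm`; `Besicovitch.card_le_of_separated` in the span of `ρ '' A` -/
theorem relIndex_center (ρ : G →* Matrix (Fin n) (Fin n) ℂ) (hinj : Function.Injective ρ)
    (hu : ∀ g, ρ g * (ρ g)ᴴ = 1) (h : HP G) (A : Subgroup G)
    (hA : ∀ x ∈ A, ∀ y ∈ A, x * y = y * x) : (Subgroup.center G).relIndex A ≤ 25 ^ n := by
  have hn : ∀ g, ‖ρ g‖ ≤ 1 := fun g => by
    rcases subsingleton_or_nontrivial (Matrix (Fin n) (Fin n) ℂ) with hs | hs
    · rw [Subsingleton.elim (ρ g) 0]
      simp
    · have := CStarRing.norm_self_mul_star (x := ρ g)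
      rw [Matrix.star_eq_conjTranspose, hu g, norm_one] at this
      nlinarith [norm_nonneg (ρ g)]
  have h0 : ∀ x : G, ‖ρ x - 1‖ < 1 / 2 → x ∈ Subgroup.center G := fun x hx => by
    have h1 : IsMulCommutative (Subgroup.normalClosure ({x} : Set G)) :=
      Subgroup.isMulCommutative_closure fun a ha b hb => by
        obtain ⟨_, rfl, h2⟩ := Group.mem_conjugatesOfSet_iff.1 ha
        obtain ⟨_, rfl, h3⟩ := Group.mem_conjugatesOfSet_iff.1 hb
        obtain ⟨c, rfl⟩ := isConj_iff.1 h2
        obtain ⟨d, rfl⟩ := isConj_iff.1 h3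
        refine hinj ?_
        rw [map_mul ρ (c * _ * c⁻¹), map_mul ρ (d * _ * d⁻¹)]
        exact J.frob ρ hn _ ((J.del_conj ρ hn c _).trans_lt hx) _
          ((J.del_conj ρ hn d _).trans_lt hx)
    exact h.comm (Subgroup.normalClosure {x}) inferInstance
      (fun a ha b hb => congrArg Subtype.val (h1.is_comm.comm ⟨a, ha⟩ ⟨b, hb⟩))
      (Subgroup.subset_normalClosure rfl)
  exact (K56.pack (ρ.comp A.subtype) (fun g => hn g) ((Subgroup.center G).subgroupOf A)
    (Submodule.span ℂ (ρ '' (A : Set G))) (fun g => Submodule.subset_span ⟨g, g.2, rfl⟩)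
    fun g hg => h0 g hg).trans (Nat.pow_le_pow_right (by norm_num) (finrank_span_le ρ A hA))

theorem card_comm (ρ : G →* Matrix (Fin n) (Fin n) ℂ) (hinj : Function.Injective ρ)
    (hu : ∀ g, ρ g * (ρ g)ᴴ = 1) (hp : commutator G = ⊤) (h : HP G) (A : Subgroup G)
    (hA : ∀ x ∈ A, ∀ y ∈ A, x * y = y * x) : Nat.card A ≤ 25 ^ n * n ^ n := by
  have h1 := card_center ((Matrix.toLinAlgEquiv' (R := ℂ) (n := Fin n)).toMulEquiv.toMonoidHom.comp ρ)
    (Matrix.toLinAlgEquiv'.injective.comp hinj) hp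
  rw [finrank_fin_fun] at h1
  have h3 : Nat.card ((Subgroup.center G).subgroupOf A) ≤ Nat.card (Subgroup.center G) :=
    Nat.card_le_card_of_injective (fun z => ⟨z.1.1, z.2⟩) fun a b e =>
      Subtype.ext (Subtype.ext (congrArg (fun z : Subgroup.center G => (z : G)) e))
  rw [← ((Subgroup.center G).subgroupOf A).index_mul_card]
  exact Nat.mul_le_mul (relIndex_center ρ hinj hu h A hA) (h3.trans h1)

end Pool.Agent.Lib.MP_d87a8f_pr.K
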