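import Mathlib
import Pool.Agent.Lib.MP_d87a8f_pr.K.Zen
import Pool.Agent.Lib.MP_d87a8f_pr.K56.K2
import Pool.Agent.Lib.MP_d87a8f_pr.K56.K3
import Pool.Agent.Lib.MP_d87a8f_pr.K.Cover

/-!
Class numbers and subgroups of prime power order of perfect linear groups.
-/

namespace Pool.Agent.Lib.MP_d87a8f_pr.K

open scoped Matrix

variable {G : Type} [Group G] [Fintype G] {n : ℕ}

/-- `p ≥ 16 n ^ 2`: by `K56.commute_of_prime` the elements with `y ^ p = 1` generate a normal subgroup with commuting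
elements, which is central, so `orderOf_center` gives `y = 1` and then `x = 1`. Otherwise take the
least `c` with `n ≤ p ^ c`, so `p ^ c ≤ p n`; `K56.exists_normal_p`, `HP`, `orderOf_center` -/
theorem order_le (ρ : G →* Matrix (Fin n) (Fin n) ℂ) (hinj : Function.Injective ρ)
    (hu : ∀ g, ρ g * (ρ g)ᴴ = 1) (hn : 0 < n) (hp : commutator G = ⊤) (h : HP G) (x : G)
    (p k : ℕ) (hpp : p.Prime) (hx : x ^ p ^ k = 1) : orderOf x ≤ 16 * n ^ 4 := by
  have key : ∀ z ∈ Subgroup.center G, ∀ j, z ^ p ^ j = 1 → orderOf z ≤ n := fun z hz j hj => by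
    have := orderOf_center (V := Fin n → ℂ) ((Matrix.toLinAlgEquiv' : Matrix (Fin n) (Fin n) ℂ
      ≃ₐ[ℂ] Module.End ℂ (Fin n → ℂ)).toMulEquiv.toMonoidHom.comp ρ)
      (Matrix.toLinAlgEquiv'.injective.comp hinj) hp (by simpa using hn) hpp hz hj
    simpa using this
  rcases le_or_gt (16 * n ^ 2) p with hD | hD
  · let W : Subgroup G :=
      { carrier := {y | y ^ p = 1}
        one_mem' := one_pow p
        mul_mem' := fun {a b} ha hb => by
          have : Commute a b := hinj (by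
            rw [map_mul, map_mul]
            exact K56.commute_of_prime ρ hu hpp (by simpa using hD) ha hb)
          exact (this.mul_pow p).trans (by rw [show a ^ p = 1 from ha, one_mul]; exact hb)
        inv_mem' := fun {a} ha => (inv_pow a p).trans (inv_eq_one.2 ha) }
    have hW := h p W hpp ⟨fun a ha g => conj_pow.trans (by
      rw [show a ^ p = 1 from ha, mul_one, mul_inv_cancel])⟩ fun y =>
        ⟨1, Subtype.ext (by rw [pow_one]; exact y.2)⟩
    have h1 : ∀ y : G, y ^ p = 1 → y = 1 := fun y hy => by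
      have := key y (hW hy) 1 (by simpa using hy)
      rcases (Nat.dvd_prime hpp).1 (orderOf_dvd_of_pow_eq_one hy) with e | e
      · exact orderOf_eq_one_iff.1 e
      · nlinarith
    have h2 : x = 1 := by
      induction k with
      | zero => simpa using hx
      | succ k ih => exact ih (h1 _ (by rw [← pow_mul, ← pow_succ, hx]))
    rw [h2, orderOf_one]
    exact Nat.succ_le_of_lt (by positivity)
  · obtain ⟨N, hN, h1, h2⟩ := K56.exists_normal_p ρ hpp
    have hz := h p N hpp hN (fun y => (h1 y y.2).imp fun j hj => Subtype.ext (hinj (by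
      simpa using hj))) (h2 x k (Nat.log p n + 1) hx (by
        simpa using (Nat.lt_pow_succ_log_self hpp.one_lt n).le))
    have h3 := key _ hz k (by rw [← pow_mul, mul_comm, pow_mul, hx, one_pow])
    calc orderOf x ≤ p ^ (Nat.log p n + 1) * orderOf (x ^ p ^ (Nat.log p n + 1)) :=
          orderOf_le_of_pow_eq_one (Nat.mul_pos (pow_pos hpp.pos _) (orderOf_pos _))
            (by rw [pow_mul, pow_orderOf_eq_one])
      _ ≤ n * (16 * n ^ 2) * n := Nat.mul_le_mul
          (Nat.mul_le_mul (Nat.pow_log_le_self p hn.ne') hD.le) h3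
      _ = _ := by ring

theorem thm_num {b : ℕ} (hb : 1 ≤ b) (h0 : 0 < n) (hn : n ≤ 2 ^ b) :
    4 * n * (16 * n ^ 4) ^ 2 * (16 * n ^ 4 * n ^ 2 + 1) ^ 2 ≤ 2 ^ (21 * b + 20) ∧
    2 * (25 ^ n * n ^ n) * (n ^ n) ^ (21 * b + 20) ≤ 2 ^ (50 * b ^ 2 * n) ∧
    n ^ n * (25 ^ n * n ^ n) ≤ 2 ^ ((2 * b + 5) * n) := by
  have h1 : n ^ n ≤ 2 ^ (b * n) := by rw [pow_mul]; exact Nat.pow_le_pow_left hn n
  have h2 : 25 ^ n ≤ 2 ^ (5 * n) := by rw [pow_mul]; exact Nat.pow_le_pow_left (by norm_num) n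
  refine ⟨?_, ?_, ?_⟩
  · have h3 : 1 ≤ 16 * n ^ 4 * n ^ 2 := Nat.succ_le_of_lt (by positivity)
    calc _ ≤ 4 * n * (16 * n ^ 4) ^ 2 * (2 * (16 * n ^ 4 * n ^ 2)) ^ 2 :=
          Nat.mul_le_mul_left _ (Nat.pow_le_pow_left (by omega) 2)
      _ = n ^ 21 * 2 ^ 20 := by ring
      _ ≤ (2 ^ b) ^ 21 * 2 ^ 20 := Nat.mul_le_mul_right _ (Nat.pow_le_pow_left hn 21)
      _ = _ := by rw [← pow_mul, ← pow_add, mul_comm]
  · calc _ ≤ 2 ^ n * (2 ^ (5 * n) * 2 ^ (b * n)) * (2 ^ (b * n)) ^ (21 * b + 20) :=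
          Nat.mul_le_mul (Nat.mul_le_mul (Nat.le_self_pow h0.ne' 2) (Nat.mul_le_mul h2 h1))
            (Nat.pow_le_pow_left h1 _)
      _ = 2 ^ ((21 * b ^ 2 + 21 * b + 6) * n) := by
          rw [← pow_mul, ← pow_add, ← pow_add, ← pow_add]
          congr 1
          ring
      _ ≤ _ := Nat.pow_le_pow_right two_pos (Nat.mul_le_mul_right _ (by nlinarith))
  · calc _ ≤ 2 ^ (b * n) * (2 ^ (5 * n) * 2 ^ (b * n)) := Nat.mul_le_mul h1 (Nat.mul_le_mul h2 h1)
      _ = _ := by
          rw [← pow_add, ← pow_add]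
          congr 1
          ring

/-- `unitarize`, `card_comm`, `order_le`, `class_count`, `mon_card` for the composition with
`Matrix.toLinAlgEquiv'` -/
theorem thmK {b : ℕ} (hb : 1 ≤ b) (h0 : 0 < n) (hn : n ≤ 2 ^ b)
    (ρ : G →* Matrix (Fin n) (Fin n) ℂ) (hinj : Function.Injective ρ) (hp : commutator G = ⊤)
    (h : HP G) : Nat.card (ConjClasses G) ≤ 2 ^ (50 * b ^ 2 * n) ∧
      ∀ (p : ℕ) (P : Subgroup G), p.Prime → IsPGroup p P →
        Nat.card P ≤ 2 ^ ((2 * b + 5) * n) := by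
  obtain ⟨π, hk, hu⟩ := unitarize ρ
  have hπ : Function.Injective π := by
    rw [injective_iff_map_eq_one] at hinj ⊢
    intro g hg
    have : g ∈ ρ.ker := hk ▸ (MonoidHom.mem_ker.2 hg)
    exact hinj g this
  obtain ⟨n1, n2, n3⟩ := thm_num hb h0 hn
  let σ : G →* Module.End ℂ (Fin n → ℂ) :=
    (Matrix.toLinAlgEquiv' (R := ℂ) (n := Fin n)).toMulEquiv.toMonoidHom.comp π
  have hσ : Function.Injective σ :=
    (Matrix.toLinAlgEquiv' (R := ℂ) (n := Fin n)).injective.comp hπ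
  have hr : Module.finrank ℂ (Fin n → ℂ) = n := Module.finrank_fin_fun ℂ
  have h1 := card_comm π hπ hu hp h
  refine ⟨?_, fun p P hpp hP => ?_⟩
  · have k := class_count σ hσ (Q := 16 * n ^ 4) (κ := 21 * b + 20) (by rw [hr]; exact h0) h1
      (order_le π hπ hu h0 hp h) (by rw [hr]; exact n1)
    rw [hr] at k
    exact k.trans n2
  · have k := mon_card hpp σ hσ _ h1 P hP
    rw [hr] at k
    exact k.trans n3

/-- `Y` = the image of `L` in `G ⧸ ρ.ker`; `hp_of_min` in the quotient, `thmK` -/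
theorem thmK_sub {b : ℕ} (hb : 1 ≤ b) (h0 : 0 < n) (hn : n ≤ 2 ^ b)
    (ρ : G →* Matrix (Fin n) (Fin n) ℂ) (L : Subgroup G) [L.Normal] (hL : ⁅L, L⁆ = L)
    (h : ∀ W : Subgroup G, W.Normal → W ≤ L → W = L ∨ ⁅W, L⁆ ≤ ρ.ker) :
    ∃ (Y : Type) (_ : Group Y) (_ : Fintype Y) (φ : L →* Y), Function.Surjective φ ∧
      φ.ker = ρ.ker.subgroupOf L ∧ Nat.card (ConjClasses Y) ≤ 2 ^ (50 * b ^ 2 * n) ∧
      ∀ (p : ℕ) (P : Subgroup Y), p.Prime → IsPGroup p P →
        Nat.card P ≤ 2 ^ ((2 * b + 5) * n) := by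
  classical
  let q : G →* G ⧸ ρ.ker := QuotientGroup.mk' ρ.ker
  have hq : Function.Surjective q := QuotientGroup.mk'_surjective _
  have hqk : q.ker = ρ.ker := QuotientGroup.ker_mk' _
  have hN : (L.map q).Normal := Subgroup.Normal.map inferInstance q hq
  have hL' : ⁅L.map q, L.map q⁆ = L.map q := by rw [← Subgroup.map_commutator, hL]
  have hHP : HP (L.map q) := hp_of_min (L.map q) hL' fun W hW hWL => by
    have := hW.comap q
    rcases h (W.comap q ⊓ L) inferInstance inf_le_right with e | e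
    · exact Or.inl (le_antisymm hWL (Subgroup.map_le_iff_le_comap.2 (e.ge.trans inf_le_left)))
    · refine Or.inr (le_bot_iff.1 ?_)
      have k1 : W ≤ (W.comap q ⊓ L).map q := fun w hw => by
        obtain ⟨x, hx, rfl⟩ := hWL hw
        exact ⟨x, ⟨hw, hx⟩, rfl⟩
      refine (Subgroup.commutator_mono k1 le_rfl).trans ?_
      rw [← Subgroup.map_commutator, le_bot_iff, Subgroup.map_eq_bot_iff, hqk]
      exact e
  have hp : commutator (L.map q) = ⊤ := by
    refine Subgroup.map_injective (L.map q).subtype_injective ?_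
    rw [Subgroup.map_subtype_commutator, hL', ← MonoidHom.range_eq_map, Subgroup.range_subtype]
  let τ : G ⧸ ρ.ker →* Matrix (Fin n) (Fin n) ℂ := QuotientGroup.lift ρ.ker ρ le_rfl
  have hτ : Function.Injective τ := by
    rw [injective_iff_map_eq_one]
    intro y hy
    obtain ⟨x, rfl⟩ := hq y
    exact (QuotientGroup.eq_one_iff x).2 hy
  let _ : Fintype (L.map q) := Fintype.ofFinite _
  refine ⟨L.map q, inferInstance, inferInstance, q.subgroupMap L, q.subgroupMap_surjective L, ?_,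
    thmK hb h0 hn (τ.comp (L.map q).subtype) (hτ.comp (L.map q).subtype_injective) hp hHP⟩
  ext x
  rw [MonoidHom.mem_ker, Subgroup.mem_subgroupOf, Subtype.ext_iff]
  exact QuotientGroup.eq_one_iff (x : G)

end Pool.Agent.Lib.MP_d87a8f_pr.K
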