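import Mathlib
import Pool.Agent.Lib.MP_d87a8f_pr.M.Ind
import Pool.Agent.Lib.MP_d87a8f_pr.K.Central
import Pool.Agent.Lib.MP_d87a8f_pr.K.Thm

/-!
A popular constituent on a perfect normal subgroup.
-/

namespace Pool.Agent.Lib.MP_d87a8f_pr.K

open Finset Pool.Agent.Lib.MP_d87a8f_pr.E Pool.Agent.Lib.MP_d87a8f_pr.M
  Pool.Agent.Lib.MP_d87a8f_pr.S

variable {G : Type} [Group G] [Fintype G]

/-- `Cl.exists_ir`, `Ch.sum_le`, `Ir.kinv`; a constituent of degree one is linear, hence `1` on the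
perfect group `L`, and then `Ir.kinv` for `ind ⊤ L 1` (`ind_kinv`, `ip_ind`) gives `L ≤ kerf χ` -/
theorem exists_con_perf {L : Subgroup G} [L.Normal] (hL : ⁅L, L⁆ = L) {χ : G → ℂ} (hχ : Ir ⊤ χ)
    {n : ℕ} (hn : χ 1 = n) (hk : ¬ L ≤ kerf χ) : ∃ (θ : G → ℂ) (e : ℕ), Ir L θ ∧ θ 1 = e ∧
      2 ≤ e ∧ e ≤ n ∧ ip L χ θ ≠ 0 ∧
      ∀ K : Subgroup G, K.Normal → K ≤ L → K ≤ kerf χ → KInv L K θ := by
  obtain ⟨c, hc0, hc⟩ := hχ.deg_pos
  have hχL : Ch L χ := hχ.1.mono le_top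
  obtain ⟨θ, hθ, hip⟩ := hχL.cl.exists_ir (by rw [hc]; exact_mod_cast hc0.ne')
  obtain ⟨e, he0, he⟩ := hθ.deg_pos
  obtain ⟨m, hm⟩ := hχL.ip_nat hθ.1
  have hm0 : m ≠ 0 := by
    rintro rfl
    exact hip (by rw [hm, Nat.cast_zero])
  have q := hχL.sum_le (ι := Unit) univ (fun _ => θ) (fun _ _ => hθ) (fun _ _ _ _ _ => rfl)
    (m := m) (e := e) (fun _ _ => hm) (fun _ _ => he) hn
  rw [card_univ, Fintype.card_unit, one_mul] at q
  refine ⟨θ, e, hθ, he, ?_, (Nat.le_mul_of_pos_left e (Nat.pos_of_ne_zero hm0)).trans q, hip,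
    fun K _ hKL hKk => hθ.kinv hKL (fun y _ x hx => hKk hx y) hip⟩
  by_contra h2
  have e1 : e = 1 := by omega
  have hl : Lin L θ := hθ.lin_of_deg (by rw [he, e1, Nat.cast_one])
  let K0 : Subgroup G :=
    { carrier := {x | x ∈ L ∧ θ x = 1}
      one_mem' := ⟨L.one_mem, hl.1⟩
      mul_mem' := fun {x y} hx hy =>
        ⟨L.mul_mem hx.1 hy.1, by rw [hl.2 x hx.1 y hy.1, hx.2, hy.2, one_mul]⟩
      inv_mem' := fun {x} hx => ⟨L.inv_mem hx.1, by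
        have := hl.inv_mul hx.1
        rwa [hx.2, mul_one] at this⟩ }
  have h1 : ⁅L, L⁆ ≤ K0 := Subgroup.commutator_le.2 fun x hx y hy => by
    have a1 := L.mul_mem hx hy
    have a2 := L.mul_mem a1 (L.inv_mem hx)
    refine ⟨L.mul_mem a2 (L.inv_mem hy), ?_⟩
    rw [commutatorElement_def, hl.2 _ a2 _ (L.inv_mem hy), hl.2 _ a1 _ (L.inv_mem hx),
      hl.2 x hx y hy]
    linear_combination (θ y⁻¹ * θ y) * hl.inv_mul hx + hl.inv_mul hy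
  rw [hL] at h1
  have h3 : KInv L L θ := fun y hy x hx => by rw [(h1 (L.mul_mem hy hx)).2, (h1 hy).2]
  have h4 : KInv ⊤ L χ := hχ.kinv le_top (ind_kinv le_rfl h3) (by
    rw [ip_ind le_top θ hχ.1.cl, ip_comm]
    exact hip)
  exact hk fun x hx y => h4 y trivial x hx

/-- `thmK_sub` for the matrices of `χ0` (`M.exists_trace`, `M.kerf_trace`), `central_perf` in the
type `L` -/
theorem card_con {b D : ℕ} (hb : 1 ≤ b) (hD : D ≤ 2 ^ b) {L : Subgroup G} [L.Normal] [Fintype L]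
    (hL : ⁅L, L⁆ = L) {χ0 : G → ℂ} (h0 : χ0 ∈ irr G D)
    (h : ∀ W : Subgroup G, W.Normal → W ≤ L → W = L ∨ ⁅W, L⁆ ≤ kerf χ0)
    (s : Finset (L → ℂ)) (hs : s ⊆ irr L D)
    (hz : ∀ θ ∈ s, ∀ y : L, ∀ x : L, (x : G) ∈ ⁅kerf χ0 ⊓ L, L⁆ → θ (y * x) = θ y) :
    s.card ≤ 2 ^ (100 * b ^ 3 * D) := by
  classical
  obtain ⟨h1, n, hn, hn'⟩ := mem_irr.1 h0
  obtain ⟨I⟩ := Q.exists_irr G
  obtain ⟨i, rfl⟩ := exists_trace I h1
  rw [kerf_trace] at h hz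
  have hd : I.d i ≤ D := by
    have e : ((I.d i : ℕ) : ℂ) = n := by
      rw [← hn']
      simp
    rw [Nat.cast_inj.1 e]
    exact hn
  have d0 := I.pos i
  obtain ⟨Y, _, _, φ, q1, q2, q3, q4⟩ := thmK_sub hb d0 (hd.trans hD) (I.ρ i) L hL h
  have hc : commutator L = ⊤ := by
    refine Subgroup.map_injective L.subtype_injective ?_
    rw [commutator_def, Subgroup.map_commutator, ← MonoidHom.range_eq_map, L.range_subtype, hL]
  refine (central_perf φ q1 hc hD q4 s hs fun θ hθ x hx y => hz θ hθ y x ?_).trans ?_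
  · have := Subgroup.mem_map_of_mem L.subtype hx
    rwa [Subgroup.map_commutator, ← MonoidHom.range_eq_map, L.range_subtype, q2,
      Subgroup.subgroupOf_map_subtype, Subgroup.commutator_comm] at this
  · refine (Nat.mul_le_mul_right _ q3).trans ?_
    rw [← pow_add]
    refine Nat.pow_le_pow_right two_pos ?_
    have a1 : b ^ 2 ≤ b ^ 3 := Nat.pow_le_pow_right hb (by norm_num)
    have a2 : b ≤ b ^ 3 := Nat.le_self_pow (by norm_num) b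
    have a3 : (2 * b + 5) * (b * (2 * b + 2)) ≤ 7 * b * (b * (4 * b)) :=
      Nat.mul_le_mul (by omega) (Nat.mul_le_mul_left _ (by omega))
    have a4 : 50 * b ^ 2 * I.d i ≤ 50 * b ^ 3 * D :=
      Nat.mul_le_mul (Nat.mul_le_mul_left _ a1) hd
    have a5 : b ≤ b ^ 3 * D := a2.trans (Nat.le_mul_of_pos_right _ (by omega))
    have a6 := Nat.mul_le_mul a3 hd
    have a7 : (2 * b + 5) * I.d i * b * (2 * b + 2) = (2 * b + 5) * (b * (2 * b + 2)) * I.d i := by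
      ring
    have a8 : 7 * b * (b * (4 * b)) * D = 28 * (b ^ 3 * D) := by ring
    rw [mul_assoc 50 (b ^ 3)] at a4
    rw [mul_assoc 100 (b ^ 3)]
    omega

open Classical in
/-- `common_perfect`, `exists_con_perf` for each member, `card_con`, a popular restriction -/
theorem stepE {b D Lam : ℕ} (hb : 1 ≤ b) (hD : D ≤ 2 ^ b) (G : Type) [Group G] [Fintype G]
    (d : ℕ) (s : Finset (G → ℂ)) (hd : d ≤ D) (hG : Fintype.card G ≤ 2 ^ Lam) (hs : s ⊆ irr G d)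
    (hn : ∀ χ ∈ s, ¬ NC G (kerf χ)) (hne : s.Nonempty) :
    ∃ (L : Subgroup G) (θ : G → ℂ) (e : ℕ), L.Normal ∧ ⁅L, L⁆ = L ∧ Ir L θ ∧ θ 1 = e ∧ 2 ≤ e ∧
      s.card ≤ Lam * 2 ^ (100 * b ^ 3 * D) * (s.filter fun χ => ip L χ θ ≠ 0).card := by
  have hnm : ∀ χ ∈ s, (kerf χ).Normal := fun χ hχ => kerf_normal (mem_irr.1 (hs hχ)).1.1.cl
  obtain ⟨L, t, hts, ⟨χ0, h0⟩, hc, hL, hp, ht⟩ := common_perfect s hne (fun χ => kerf χ)
    (fun χ hχ => ⟨hnm χ hχ, hn χ hχ⟩) (Lam := Lam) (by rwa [Nat.card_eq_fintype_card])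
  have : Fintype L := Fintype.ofFinite L
  have hex : ∀ χ ∈ t, ∃ (θ : G → ℂ) (e : ℕ), Ir L θ ∧ θ 1 = e ∧ 2 ≤ e ∧ e ≤ D ∧ ip L χ θ ≠ 0 ∧
      ∀ K : Subgroup G, K.Normal → K ≤ L → K ≤ kerf χ → KInv L K θ := by
    intro χ hχ
    obtain ⟨h1, n, h2, h3⟩ := mem_irr.1 (hs (hts hχ))
    obtain ⟨θ, e, a1, a2, a3, a4, a5, a6⟩ := exists_con_perf hp h1 h3 (ht χ hχ).1
    exact ⟨θ, e, a1, a2, a3, a4.trans (h2.trans hd), a5, a6⟩
  choose! th ee h using hex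
  set f : (G → ℂ) → L → ℂ := fun χ x => th χ x with hf
  have h0' : χ0 ∈ irr G D := by
    obtain ⟨h1, n, h2, h3⟩ := mem_irr.1 (hs (hts h0))
    exact mem_irr.2 ⟨h1, n, h2.trans hd, h3⟩
  have := hnm χ0 (hts h0)
  have hcard : (t.image f).card ≤ 2 ^ (100 * b ^ 3 * D) := by
    refine card_con hb hD hp h0' (ht χ0 h0).2 _ (fun θ hθ => ?_) (fun θ hθ y x hx => ?_)
    · obtain ⟨χ, hχ, rfl⟩ := mem_image.1 hθ
      obtain ⟨a1, a2, -, a4, -, -⟩ := h χ hχ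
      exact mem_irr.2 ⟨ir_subtype L a1, ee χ, a4, a2⟩
    · obtain ⟨χ, hχ, rfl⟩ := mem_image.1 hθ
      refine (h χ hχ).2.2.2.2.2 ⁅kerf χ0 ⊓ L, L⁆ inferInstance
        (Subgroup.commutator_le_right _ _) ?_ y y.2 x hx
      refine ((ht χ hχ).2 (kerf χ0 ⊓ L) inferInstance inf_le_right).resolve_left fun e => ?_
      exact (ht χ0 h0).1 (e ▸ inf_le_left)
  obtain ⟨y, hy, hmax⟩ := exists_max_image (t.image f)
    (fun y => (t.filter fun χ => f χ = y).card) ⟨f χ0, mem_image_of_mem f h0⟩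
  have h2 := card_le_mul_card_image t _ hmax
  obtain ⟨χ1, h1, rfl⟩ := mem_image.1 hy
  obtain ⟨a1, a2, a3, -, -, -⟩ := h χ1 h1
  refine ⟨L, th χ1, ee χ1, hL, hp, a1, a2, a3, hc.trans ?_⟩
  rw [mul_assoc]
  refine Nat.mul_le_mul_left _ (h2.trans ?_)
  rw [mul_comm]
  refine Nat.mul_le_mul hcard (card_le_card fun χ hχ => ?_)
  obtain ⟨b1, b2⟩ := mem_filter.1 hχ
  refine mem_filter.2 ⟨hts b1, ?_⟩
  rw [ip_congr (fun _ _ => rfl) (g' := th χ) fun x hx => (congrFun b2 ⟨x, hx⟩).symm]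
  exact (h χ b1).2.2.2.2.1

end Pool.Agent.Lib.MP_d87a8f_pr.K
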